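import Pool.Agent.H87.SN.Targets

/-! Auxiliary lemmas for the board snk (MP_2697e3_an). -/

namespace Pool.Agent.H87.SN

open MeasureTheory Metric Set Filter Topology
open scoped ContDiff RealInnerProductSpace

variable {n : ℕ}

/-- Product of a compactly supported function in `U` and a function on `U`: continuity. -/
theorem cont_mul {a b : E n → ℝ} {U : Set (E n)} (hU : IsOpen U) (ha : Continuous a)
    (hs : tsupport a ⊆ U) (hb : ContinuousOn b U) : Continuous (fun x => a x * b x) := by
  rw [continuous_iff_continuousAt]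
  intro x
  by_cases hx : x ∈ U
  · exact ha.continuousAt.mul (hb.continuousAt (hU.mem_nhds hx))
  · have hx' : x ∉ tsupport a := fun h => hx (hs h)
    have h0 : a =ᶠ[𝓝 x] 0 := notMem_tsupport_iff_eventuallyEq.mp hx'
    have h1 : (fun x => a x * b x) =ᶠ[𝓝 x] fun _ => (0 : ℝ) := by
      filter_upwards [h0] with y hy
      simp [hy]
    exact continuousAt_const.congr h1.symm

/-- Product of a compactly supported function in `U` and a function on `U`: class `C^1`. -/
theorem cd_mul {a b : E n → ℝ} {U : Set (E n)} (hU : IsOpen U) (ha : ContDiff ℝ 1 a)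
    (hs : tsupport a ⊆ U) (hb : ContDiffOn ℝ 1 b U) : ContDiff ℝ 1 (fun x => a x * b x) := by
  rw [contDiff_iff_contDiffAt]
  intro x
  by_cases hx : x ∈ U
  · exact ha.contDiffAt.mul (hb.contDiffAt (hU.mem_nhds hx))
  · have hx' : x ∉ tsupport a := fun h => hx (hs h)
    have h0 : a =ᶠ[𝓝 x] 0 := notMem_tsupport_iff_eventuallyEq.mp hx'
    have h1 : (fun x => a x * b x) =ᶠ[𝓝 x] fun _ => (0 : ℝ) := by
      filter_upwards [h0] with y hy
      simp [hy]
    exact contDiffAt_const.congr_of_eventuallyEq h1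

/-- Integrability of such products. -/
theorem int_mul {a b : E n → ℝ} {U : Set (E n)} (hU : IsOpen U) (ha : Continuous a)
    (hc : HasCompactSupport a) (hs : tsupport a ⊆ U) (hb : ContinuousOn b U) :
    Integrable (fun x => a x * b x) :=
  (cont_mul hU ha hs hb).integrable_of_hasCompactSupport hc.mul_right

theorem lap_cont {f : E n → ℝ} {U : Set (E n)} (hU : IsOpen U) (hf : ContDiffOn ℝ 2 f U) :
    ContinuousOn (lap f) U := by
  have h1 : ContDiffOn ℝ 1 (fderiv ℝ f) U := hf.fderiv_of_isOpen hU (by norm_num)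
  have h2 : ContDiffOn ℝ 0 (fderiv ℝ (fderiv ℝ f)) U := h1.fderiv_of_isOpen hU (by norm_num)
  have h3 : ContinuousOn (fderiv ℝ (fderiv ℝ f)) U := h2.continuousOn
  unfold lap
  exact continuousOn_finsetSum _ fun i _ => (h3.clm_apply continuousOn_const).clm_apply
    continuousOn_const

theorem fderiv_sum_bv {F : Type*} [NormedAddCommGroup F] [NormedSpace ℝ F] (L : E n →L[ℝ] F)
    (c : Fin n → ℝ) : L (∑ i, c i • bv i) = ∑ i, c i • L (bv i) := by
  rw [map_sum]; simp

theorem norm_sum_bv (c : Fin n → ℝ) : ‖∑ i, c i • bv (n := n) i‖ ^ 2 = ∑ i, c i ^ 2 := by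
  rw [EuclideanSpace.norm_sq_eq]
  refine Finset.sum_congr rfl fun i _ => ?_
  simp [bv, Pi.single_apply]

theorem inner_sum_bv (c : Fin n → ℝ) (v : E n) : ⟪v, ∑ i, c i • bv (n := n) i⟫ = ∑ i, c i * v i := by
  rw [inner_sum]
  refine Finset.sum_congr rfl fun i _ => ?_
  rw [inner_smul_right]
  simp [bv, EuclideanSpace.inner_single_right]

theorem sum_bv (v : E n) : ∑ i, v i • bv (n := n) i = v := by
  ext j
  simp [bv, Pi.single_apply]

theorem gsq_eq (f : E n → ℝ) (x : E n) : gsq f x = ∑ i, (fderiv ℝ f x (bv i)) ^ 2 := by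
  simp [gsq, nsq, Real.norm_eq_abs, sq_abs]

theorem gsq_nonneg (f : E n → ℝ) (x : E n) : 0 ≤ gsq f x := by
  rw [gsq_eq]; positivity

/-- The inner product with the gradient is the derivative. -/
theorem inner_grad (f : E n → ℝ) (x v : E n) :
    ⟪v, ∑ i, (fderiv ℝ f x (bv i)) • bv (n := n) i⟫ = fderiv ℝ f x v := by
  rw [inner_sum_bv]
  conv_rhs => rw [← sum_bv v]
  rw [fderiv_sum_bv]
  simp [mul_comm]

end Pool.Agent.H87.SN
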