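import Pool.Agent.H87.SN.Tools

/-! Row ANG of the board snk (MP_2697e3_an): the angular estimate. -/

namespace Pool.Agent.H87.SN

open MeasureTheory Metric Set Filter Topology
open scoped ContDiff RealInnerProductSpace

/-- The pointwise inequality, algebraic part. -/
theorem ang_alg {ρ g2 a2 tt w gw gχ χ p s ip nL : ℝ} (hρ : 0 < ρ) (hw : 0 < w) (hg2 : 0 ≤ g2)
    (ha2 : 0 ≤ a2) (hgχ : 0 ≤ gχ) (hw6 : ρ ^ 2 * gw ≤ 5 / 2 * w ^ 2)
    (hn : nL = g2 + (ρ ^ 2)⁻¹ * tt) (hip : |ip| * ρ ^ 2 ≤ 1 / 8 * a2)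
    (hp : p ^ 2 ≤ a2 * (gw * g2)) (hs : s ^ 2 ≤ a2 * (gχ * g2)) :
    χ ^ 2 * w * (ρ ^ 2)⁻¹ * tt - 53 / 64 * (χ ^ 2 * w * (ρ ^ 2)⁻¹ * a2) - 9 * (w * gχ * a2) ≤
      χ ^ 2 * w * (nL - ip) + χ ^ 2 * p + 2 * χ * w * s := by
  have hρ2 : 0 < ρ ^ 2 := by positivity
  set R := (ρ ^ 2)⁻¹ with hR
  have hR0 : 0 < R := by positivity
  have hRρ : R * ρ ^ 2 = 1 := by rw [hR]; field_simp
  have h1 : |ip| ≤ 1 / 8 * (R * a2) := by
    have : |ip| = R * (|ip| * ρ ^ 2) := by
      calc |ip| = |ip| * (R * ρ ^ 2) := by rw [hRρ, mul_one]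
        _ = _ := by ring
    rw [this]
    calc R * (|ip| * ρ ^ 2) ≤ R * (1 / 8 * a2) := mul_le_mul_of_nonneg_left hip hR0.le
      _ = _ := by ring
  have h1' : ip ≤ 1 / 8 * (R * a2) := (le_abs_self _).trans h1
  have hgw' : gw ≤ 5 / 2 * w ^ 2 * R := by
    have : gw = R * (ρ ^ 2 * gw) := by
      calc gw = (R * ρ ^ 2) * gw := by rw [hRρ, one_mul]
        _ = _ := by ring
    rw [this]
    calc R * (ρ ^ 2 * gw) ≤ R * (5 / 2 * w ^ 2) := mul_le_mul_of_nonneg_left hw6 hR0.le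
      _ = _ := by ring
  -- first cross term
  have h2 : |p| ≤ w * (8 / 9 * g2 + 45 / 64 * (R * a2)) := by
    have e1 : p ^ 2 ≤ a2 * (5 / 2 * w ^ 2 * R * g2) :=
      hp.trans (mul_le_mul_of_nonneg_left (mul_le_mul_of_nonneg_right hgw' hg2) ha2)
    have e2 : a2 * (5 / 2 * w ^ 2 * R * g2) ≤ (w * (8 / 9 * g2 + 45 / 64 * (R * a2))) ^ 2 := by
      have : 0 ≤ w ^ 2 * (8 / 9 * g2 - 45 / 64 * (R * a2)) ^ 2 := by positivity
      nlinarith [this]
    exact abs_le_of_sq_le_sq (e1.trans e2) (by positivity)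
  -- second cross term
  have h3 : |2 * χ * s| ≤ 1 / 9 * (χ ^ 2 * g2) + 9 * (gχ * a2) := by
    have e1 : (2 * χ * s) ^ 2 ≤ 4 * χ ^ 2 * (a2 * (gχ * g2)) := by
      have : (2 * χ * s) ^ 2 = 4 * χ ^ 2 * s ^ 2 := by ring
      rw [this]
      exact mul_le_mul_of_nonneg_left hs (by positivity)
    have e2 : 0 ≤ (1 / 9 * (χ ^ 2 * g2) - 9 * (gχ * a2)) ^ 2 := sq_nonneg _
    exact abs_le_of_sq_le_sq (by nlinarith [e1, e2]) (by positivity)
  have h4 : -(w * (8 / 9 * g2 + 45 / 64 * (R * a2))) ≤ p := (abs_le.1 h2).1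
  have h5 : -(1 / 9 * (χ ^ 2 * g2) + 9 * (gχ * a2)) ≤ 2 * χ * s := (abs_le.1 h3).1
  have h6 : -(χ ^ 2 * (w * (8 / 9 * g2 + 45 / 64 * (R * a2)))) ≤ χ ^ 2 * p := by
    have := mul_le_mul_of_nonneg_left h4 (sq_nonneg χ)
    linarith
  have h7 : -(w * (1 / 9 * (χ ^ 2 * g2) + 9 * (gχ * a2))) ≤ 2 * χ * w * s := by
    have := mul_le_mul_of_nonneg_left h5 hw.le
    linarith
  have h8 : χ ^ 2 * w * (nL - 1 / 8 * (R * a2)) ≤ χ ^ 2 * w * (nL - ip) :=
    mul_le_mul_of_nonneg_left (by linarith) (by positivity)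
  rw [hn] at h8 ⊢
  nlinarith [h6, h7, h8]

/-- Invariant functions have no derivative along the rotation field. -/
theorem rot_deriv {d : ℕ} (hROT : T_ROT) {f : E (d + 2) → ℝ} {x : E (d + 2)}
    (hf : DifferentiableAt ℝ f x) (hr : ∀ θ : ℝ, f (rot θ x) = f x) :
    fderiv ℝ f x (Jm d x) = 0 := by
  have R := hROT d
  have h1 : HasDerivAt (fun s : ℝ => rot s x) (Jm d x) 0 := by
    have := R.hasDeriv x 0
    rwa [R.zero x] at this
  have h2 : HasFDerivAt f (fderiv ℝ f x) (rot 0 x) := by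
    rw [R.zero x]; exact hf.hasFDerivAt
  have h3 : HasDerivAt (fun s : ℝ => f (rot s x)) (fderiv ℝ f x (Jm d x)) 0 :=
    h2.comp_hasDerivAt 0 h1
  have h4 : (fun s : ℝ => f (rot s x)) = fun _ => f x := funext hr
  rw [h4] at h3
  exact h3.unique (hasDerivAt_const 0 (f x))

theorem pf_ANG (hROT : T_ROT) (hLA2 : T_LA2) (hGRN : T_GRN) (hBO2 : T_BO2) (hWIC : T_WIC) :
    T_ANG := by
  intro d m U u w χ hU hrot hpos hu horth hang hw1 hw0 hwrot hw6 hχ1 hχc hχs hχrot
  have R := hROT d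
  obtain ⟨huth, hB⟩ := hBO2 d m U u hU hu horth
  have hχz : ∀ x, x ∉ U → χ x = 0 := fun x hx => by
    by_contra h
    exact hx (hχs (subset_tsupport _ h))
  -- continuity facts on `U`
  have hrhoc : Continuous (fun x : E (d + 2) => rho x ^ 2) := by
    have : (fun x : E (d + 2) => rho x ^ 2) = fun x => x 0 ^ 2 + x 1 ^ 2 := by
      funext x; unfold rho; rw [Real.sq_sqrt (by positivity)]
    rw [this]; fun_prop
  have hRc : ContinuousOn (fun x : E (d + 2) => (rho x ^ 2)⁻¹) U :=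
    hrhoc.continuousOn.inv₀ fun x hx => (pow_pos (hpos x hx) 2).ne'
  have hwc : ContinuousOn w U := hw1.continuousOn
  have huc : ContinuousOn (uth u) U := huth.continuousOn
  have hDu : ContDiffOn ℝ ∞ (fderiv ℝ (uth u)) U := huth.fderiv_of_isOpen hU (by norm_num)
  have hDuc : ContinuousOn (fderiv ℝ (uth u)) U := hDu.continuousOn
  have httc : ContinuousOn (uthth u) U := by
    unfold uthth
    exact hDuc.clm_apply (Jm d).continuous.continuousOn
  have hf : ContDiffOn ℝ 2 (fun y => ‖uth u y‖ ^ 2) U :=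
    (huth.norm_sq ℝ).of_le (WithTop.coe_le_coe.2 le_top)
  have hlapc := lap_cont hU hf
  have hχ2 : ContDiff ℝ 1 (fun x => χ x ^ 2) := hχ1.pow 2
  have hχ2c : HasCompactSupport (fun x => χ x ^ 2) := by
    have : (fun x => χ x ^ 2) = fun x => χ x * χ x := by funext x; ring
    rw [this]; exact hχc.mul_right
  have hχ2s : tsupport (fun x => χ x ^ 2) ⊆ U := by
    refine subset_trans (closure_mono ?_) hχs
    intro x hx h0
    apply hx
    simp only [h0]; norm_num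
  have hΨ1 : ContDiff ℝ 1 (fun x => χ x ^ 2 * w x) := cd_mul hU hχ2 hχ2s hw1
  have hΨc : HasCompactSupport (fun x => χ x ^ 2 * w x) := hχ2c.mul_right
  have hΨs : tsupport (fun x => χ x ^ 2 * w x) ⊆ U :=
    subset_trans (tsupport_mul_subset_left) hχ2s
  -- Green
  have hG := hGRN (d + 2) U (fun x => χ x ^ 2 * w x) (fun y => ‖uth u y‖ ^ 2) hU hΨ1 hΨc hΨs hf
  -- the weight of the circles
  have hA0 : Continuous (fun x => χ x ^ 2 * (w x * (rho x ^ 2)⁻¹)) :=
    cont_mul hU hχ2.continuous hχ2s (hwc.mul hRc)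
  have hWa := hWIC d m U u (fun x => χ x ^ 2 * (w x * (rho x ^ 2)⁻¹)) hU hrot hu hA0
    hχ2c.mul_right (subset_trans (tsupport_mul_subset_left) hχ2s)
    (fun x => by
      by_cases hx : x ∈ U
      · have := hw0 x hx
        positivity
      · simp [hχz x hx])
    (fun θ x => by
      by_cases hx : x ∈ U
      · simp only [hχrot θ x, hwrot θ x hx, R.rho θ x]
      · simp only [hχrot θ x, hχz x hx]; ring)
  -- integrable functions
  have iA : Integrable (fun x => χ x ^ 2 * w x * (rho x ^ 2)⁻¹ * ‖uthth u x‖ ^ 2) := by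
    have := int_mul hU hχ2.continuous hχ2c hχ2s ((hwc.mul hRc).mul (httc.norm.pow 2))
    refine this.congr (Eventually.of_forall fun x => ?_)
    simp only [Pi.mul_apply, Pi.pow_apply]; ring
  have iB : Integrable (fun x => χ x ^ 2 * w x * (rho x ^ 2)⁻¹ * ‖uth u x‖ ^ 2) := by
    have := int_mul hU hχ2.continuous hχ2c hχ2s ((hwc.mul hRc).mul (huc.norm.pow 2))
    refine this.congr (Eventually.of_forall fun x => ?_)
    simp only [Pi.mul_apply, Pi.pow_apply]; ring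
  have hgc : Continuous (gsq χ) := by
    have h1 : Continuous (fderiv ℝ χ) := hχ1.continuous_fderiv (by norm_num)
    have : gsq χ = fun x => ∑ i, (fderiv ℝ χ x (bv i)) ^ 2 := funext (gsq_eq χ)
    rw [this]
    fun_prop
  have hgs : tsupport (gsq χ) ⊆ tsupport χ := by
    refine closure_minimal ?_ (isClosed_tsupport _)
    intro x hx
    by_contra h
    apply hx
    have h0 : χ =ᶠ[𝓝 x] fun _ => (0 : ℝ) := notMem_tsupport_iff_eventuallyEq.mp h
    rw [gsq_eq, h0.fderiv_eq]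
    simp
  have hgcs : HasCompactSupport (gsq χ) := IsCompact.of_isClosed_subset hχc (isClosed_tsupport _) hgs
  have iC : Integrable (fun x => w x * gsq χ x * ‖uth u x‖ ^ 2) := by
    have := int_mul hU hgc hgcs (hgs.trans hχs) (hwc.mul (huc.norm.pow 2))
    refine this.congr (Eventually.of_forall fun x => ?_)
    simp only [Pi.mul_apply, Pi.pow_apply]; ring
  have iL : Integrable (fun x => χ x ^ 2 * w x * lap (fun y => ‖uth u y‖ ^ 2) x) := by
    have := int_mul hU hχ2.continuous hχ2c hχ2s (hwc.mul hlapc)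
    refine this.congr (Eventually.of_forall fun x => ?_)
    simp only [Pi.mul_apply]; ring
  have hDf : ContinuousOn (fderiv ℝ (fun y => ‖uth u y‖ ^ 2)) U :=
    (hf.fderiv_of_isOpen hU (m := 1) (by norm_num)).continuousOn
  have hDΨ : Continuous (fderiv ℝ (fun x => χ x ^ 2 * w x)) := hΨ1.continuous_fderiv (by norm_num)
  have hDΨs : ∀ i, tsupport (fun x => fderiv ℝ (fun x => χ x ^ 2 * w x) x (bv i)) ⊆ U := by
    intro i
    refine subset_trans (closure_minimal ?_ (isClosed_tsupport _)) hΨs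
    intro x hx
    by_contra h
    apply hx
    have h0 : (fun x => χ x ^ 2 * w x) =ᶠ[𝓝 x] fun _ => (0 : ℝ) :=
      notMem_tsupport_iff_eventuallyEq.mp h
    show fderiv ℝ (fun x => χ x ^ 2 * w x) x (bv i) = 0
    rw [h0.fderiv_eq]
    simp
  have iS : Integrable (fun x => ∑ i, fderiv ℝ (fun x => χ x ^ 2 * w x) x (bv i) *
      fderiv ℝ (fun y => ‖uth u y‖ ^ 2) x (bv i)) := by
    refine integrable_finsetSum _ fun i _ => ?_
    refine int_mul hU (hDΨ.clm_apply continuous_const) ?_ (hDΨs i)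
      (hDf.clm_apply continuousOn_const)
    exact HasCompactSupport.fderiv_apply ℝ hΨc (bv i)
  -- the pointwise inequality
  have hpt : ∀ x, χ x ^ 2 * w x * (rho x ^ 2)⁻¹ * ‖uthth u x‖ ^ 2
      - 53 / 64 * (χ x ^ 2 * w x * (rho x ^ 2)⁻¹ * ‖uth u x‖ ^ 2)
      - 9 * (w x * gsq χ x * ‖uth u x‖ ^ 2) ≤
      1 / 2 * (χ x ^ 2 * w x * lap (fun y => ‖uth u y‖ ^ 2) x +
        ∑ i, fderiv ℝ (fun x => χ x ^ 2 * w x) x (bv i) *
          fderiv ℝ (fun y => ‖uth u y‖ ^ 2) x (bv i)) := by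
    intro x
    by_cases hx : x ∈ U
    · obtain ⟨hl, hD⟩ := hB x hx
      have hρ := hpos x hx
      have hwd : DifferentiableAt ℝ w x :=
        (hw1.differentiableOn (by norm_num)).differentiableAt (hU.mem_nhds hx)
      have hχd : DifferentiableAt ℝ χ x := (hχ1.differentiable (by norm_num)) x
      set L := fderiv ℝ (uth u) x with hL
      set gradw : E (d + 2) := ∑ i, (fderiv ℝ w x (bv i)) • bv i with hgw
      set gradχ : E (d + 2) := ∑ i, (fderiv ℝ χ x (bv i)) • bv i with hgχ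
      have hne : ‖Jm d x‖ = rho x := R.normJ x
      set e : E (d + 2) := (rho x)⁻¹ • Jm d x with he
      have he1 : ‖e‖ = 1 := by
        rw [he, norm_smul, hne, Real.norm_eq_abs, abs_of_pos (by positivity)]
        field_simp
      have hLe : ‖L e‖ ^ 2 = (rho x ^ 2)⁻¹ * ‖uthth u x‖ ^ 2 := by
        have : L e = (rho x)⁻¹ • uthth u x := by
          rw [he, map_smul]; rfl
        rw [this, norm_smul, mul_pow, Real.norm_eq_abs, sq_abs, inv_pow]
      have hg2 : 0 ≤ nsq L - ‖L e‖ ^ 2 := by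
        have h1 := hLA2 (d + 2) m L e (Pm d x) he1 (by
          rw [he, inner_smul_left, R.innerJP x, mul_zero])
        rw [R.normP x] at h1
        have h2 : 0 < rho x ^ 2 := by positivity
        have h3 : 0 ≤ ‖L (Pm d x)‖ ^ 2 := by positivity
        by_contra hneg
        push Not at hneg
        have := mul_neg_of_pos_of_neg h2 hneg
        linarith
      have hperpw : ⟪e, gradw⟫ = 0 := by
        rw [he, inner_smul_left, hgw, inner_grad,
          rot_deriv hROT hwd (fun θ => hwrot θ x hx), mul_zero]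
      have hperpχ : ⟪e, gradχ⟫ = 0 := by
        rw [he, inner_smul_left, hgχ, inner_grad,
          rot_deriv hROT hχd (fun θ => hχrot θ x), mul_zero]
      have hnw : ‖gradw‖ ^ 2 = gsq w x := by rw [hgw, norm_sum_bv, gsq_eq]
      have hnχ : ‖gradχ‖ ^ 2 = gsq χ x := by rw [hgχ, norm_sum_bv, gsq_eq]
      have hp : ⟪uth u x, L gradw⟫ ^ 2 ≤ ‖uth u x‖ ^ 2 * (gsq w x * (nsq L - ‖L e‖ ^ 2)) := by
        have h1 := hLA2 (d + 2) m L e gradw he1 hperpw
        rw [hnw] at h1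
        have h2 : ⟪uth u x, L gradw⟫ ^ 2 ≤ ‖uth u x‖ ^ 2 * ‖L gradw‖ ^ 2 := by
          rw [← mul_pow]
          exact sq_le_sq' (by linarith [neg_le_of_abs_le (abs_real_inner_le_norm (uth u x) (L gradw))])
            (real_inner_le_norm _ _)
        exact h2.trans (mul_le_mul_of_nonneg_left h1 (by positivity))
      have hs : ⟪uth u x, L gradχ⟫ ^ 2 ≤ ‖uth u x‖ ^ 2 * (gsq χ x * (nsq L - ‖L e‖ ^ 2)) := by
        have h1 := hLA2 (d + 2) m L e gradχ he1 hperpχ
        rw [hnχ] at h1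
        have h2 : ⟪uth u x, L gradχ⟫ ^ 2 ≤ ‖uth u x‖ ^ 2 * ‖L gradχ‖ ^ 2 := by
          rw [← mul_pow]
          exact sq_le_sq' (by linarith [neg_le_of_abs_le (abs_real_inner_le_norm (uth u x) (L gradχ))])
            (real_inner_le_norm _ _)
        exact h2.trans (mul_le_mul_of_nonneg_left h1 (by positivity))
      have halg := ang_alg (tt := ‖uthth u x‖ ^ 2) (χ := χ x) (nL := nsq L) hρ (hw0 x hx) hg2
        (by positivity : (0 : ℝ) ≤ ‖uth u x‖ ^ 2) (gsq_nonneg χ x) (hw6 x hx)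
        (by rw [← hLe]; ring) (hang x hx) hp hs
      refine halg.trans (le_of_eq ?_)
      have hsum : ∑ i, fderiv ℝ (fun x => χ x ^ 2 * w x) x (bv i) *
          fderiv ℝ (fun y => ‖uth u y‖ ^ 2) x (bv i) =
          2 * (χ x ^ 2 * ⟪uth u x, L gradw⟫ + 2 * χ x * w x * ⟪uth u x, L gradχ⟫) := by
        have e1 : ∀ i, fderiv ℝ (fun x => χ x ^ 2 * w x) x (bv i) =
            χ x ^ 2 * fderiv ℝ w x (bv i) + 2 * χ x * w x * fderiv ℝ χ x (bv i) := by
          intro i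
          have h1 : HasFDerivAt (fun x => χ x ^ 2 * w x)
              (χ x ^ 2 • fderiv ℝ w x + w x • ((2 • χ x ^ (2 - 1)) • fderiv ℝ χ x)) x := by
            have := (hχd.hasFDerivAt.pow 2).mul hwd.hasFDerivAt
            exact this
          rw [h1.fderiv]
          simp
          ring
        have e2 : ∀ i, fderiv ℝ (fun x => χ x ^ 2 * w x) x (bv i) *
            fderiv ℝ (fun y => ‖uth u y‖ ^ 2) x (bv i) =
            2 * (χ x ^ 2 * ⟪uth u x, (fderiv ℝ w x (bv i)) • L (bv i)⟫ +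
              2 * χ x * w x * ⟪uth u x, (fderiv ℝ χ x (bv i)) • L (bv i)⟫) := by
          intro i
          rw [e1 i, hD (bv i), inner_smul_right, inner_smul_right]
          ring
        rw [Finset.sum_congr rfl fun i _ => e2 i, ← Finset.mul_sum, Finset.sum_add_distrib,
          ← Finset.mul_sum, ← Finset.mul_sum, ← inner_sum, ← inner_sum, ← fderiv_sum_bv,
          ← fderiv_sum_bv]
      rw [hsum, hl]
      ring
    · have h0 : χ =ᶠ[𝓝 x] fun _ => (0 : ℝ) :=
        notMem_tsupport_iff_eventuallyEq.mp fun h => hx (hχs h)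
      have h1 : (fun x => χ x ^ 2 * w x) =ᶠ[𝓝 x] fun _ => (0 : ℝ) := by
        filter_upwards [h0] with y hy
        rw [hy]; ring
      have h2 : gsq χ x = 0 := by
        rw [gsq_eq, h0.fderiv_eq]; simp
      rw [h1.fderiv_eq, h2, hχz x hx]
      simp
  -- integrate
  have hint := integral_mono ((iA.sub (iB.const_mul (53 / 64))).sub (iC.const_mul 9))
    ((iL.add iS).const_mul (1 / 2)) hpt
  have e1 : ∫ x, (1 / 2 : ℝ) * (χ x ^ 2 * w x * lap (fun y => ‖uth u y‖ ^ 2) x +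
        ∑ i, fderiv ℝ (fun x => χ x ^ 2 * w x) x (bv i) *
          fderiv ℝ (fun y => ‖uth u y‖ ^ 2) x (bv i)) = 0 := by
    rw [integral_const_mul, integral_add iL iS, hG]
    ring
  have e2 : ∫ x, (χ x ^ 2 * w x * (rho x ^ 2)⁻¹ * ‖uthth u x‖ ^ 2
      - 53 / 64 * (χ x ^ 2 * w x * (rho x ^ 2)⁻¹ * ‖uth u x‖ ^ 2)
      - 9 * (w x * gsq χ x * ‖uth u x‖ ^ 2)) =
      (∫ x, χ x ^ 2 * w x * (rho x ^ 2)⁻¹ * ‖uthth u x‖ ^ 2)
      - 53 / 64 * (∫ x, χ x ^ 2 * w x * (rho x ^ 2)⁻¹ * ‖uth u x‖ ^ 2)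
      - 9 * ∫ x, w x * gsq χ x * ‖uth u x‖ ^ 2 := by
    have q1 := integral_sub (iA.sub (iB.const_mul (53 / 64))) (iC.const_mul 9)
    have q2 := integral_sub iA (iB.const_mul (53 / 64))
    simp only [Pi.sub_apply] at q1
    rw [q1, q2, integral_const_mul, integral_const_mul]
  have hint' := hint
  simp only [Pi.sub_apply, Pi.add_apply] at hint'
  rw [e1, e2] at hint'
  have e3 : ∫ x, (χ x ^ 2 * (w x * (rho x ^ 2)⁻¹)) * ‖uth u x‖ ^ 2 =
      ∫ x, χ x ^ 2 * w x * (rho x ^ 2)⁻¹ * ‖uth u x‖ ^ 2 :=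
    integral_congr_ae (Eventually.of_forall fun x => by ring)
  have e4 : ∫ x, (χ x ^ 2 * (w x * (rho x ^ 2)⁻¹)) * ‖uthth u x‖ ^ 2 =
      ∫ x, χ x ^ 2 * w x * (rho x ^ 2)⁻¹ * ‖uthth u x‖ ^ 2 :=
    integral_congr_ae (Eventually.of_forall fun x => by ring)
  rw [e3, e4] at hWa
  have hC0 : 0 ≤ ∫ x, w x * gsq χ x * ‖uth u x‖ ^ 2 := by
    refine integral_nonneg fun x => ?_
    by_cases hx : x ∈ U
    · have := hw0 x hx
      have := gsq_nonneg χ x
      positivity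
    · have h0 : χ =ᶠ[𝓝 x] fun _ => (0 : ℝ) :=
        notMem_tsupport_iff_eventuallyEq.mp fun h => hx (hχs h)
      have h2 : gsq χ x = 0 := by
        rw [gsq_eq, h0.fderiv_eq]; simp
      simp [h2]
  linarith

end Pool.Agent.H87.SN
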