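import Pool.Agent.H87.SN.Done2

/-! Straight necks of stationary harmonic maps (MP_2697e3_an): short forms of the definitions, used in
the statements of the results. -/

namespace Pool.Agent.H87.SN

open MeasureTheory Metric Set Filter Topology
open scoped ContDiff RealInnerProductSpace ENNReal

noncomputable section

/-- Linear maps from `R^n` to `R^m`. -/
abbrev Lin (n m : ℕ) := E n →L[ℝ] E m

/-- Bilinear maps from `R^m × R^m` to `R^m`. -/
abbrev Bil (m : ℕ) := E m →L[ℝ] Lin m m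

/-- The value `L v`. -/
def ap {n m : ℕ} (L : Lin n m) (v : E n) : E m := L v

/-- The value `B(v, w)`. -/
def ap2 {m : ℕ} (B : Bil m) (v w : E m) : E m := ap (B v) w

/-- The classical derivative of `f` at `x` in the direction `v`. -/
def pd {n m : ℕ} (f : E n → E m) (x v : E n) : E m := fderiv ℝ f x v

/-- The classical derivative of the real function `f` at `x` in the direction `v`. -/
def pdr {n : ℕ} (f : E n → ℝ) (x v : E n) : ℝ := fderiv ℝ f x v

/-- The vector `ν` is orthogonal to all tangent vectors of `N` at `q`. -/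
def IsNormal {m : ℕ} (N : Set (E m)) (q ν : E m) : Prop :=
  ∀ τ : E m, IsTangent N q τ → ⟪ν, τ⟫ = 0

/-- `A` is the second fundamental form of `N` in `R^m` (with the sign in which geodesics solve
`-γ'' = A(γ)(γ', γ')`): continuous on `N`, normal on tangent vectors, and `γ'' + A(γ)(γ',γ')` is orthogonal
to all normal vectors for every curve `γ` of class `C^2` in `N`. -/
def IsSecond {m : ℕ} (N : Set (E m)) (A : E m → Bil m) : Prop :=
  (∀ v w : E m, ContinuousOn (fun q => ap2 (A q) v w) N) ∧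
  (∀ q ∈ N, ∀ v w : E m, IsTangent N q v → IsTangent N q w → IsNormal N q (ap2 (A q) v w)) ∧
  (∀ γ : ℝ → E m, ContDiffAt ℝ 2 γ 0 → (∀ᶠ s in 𝓝 (0 : ℝ), γ s ∈ N) →
    ∀ ν : E m, IsNormal N (γ 0) ν →
      ⟪deriv (deriv γ) 0 + ap2 (A (γ 0)) (deriv γ 0) (deriv γ 0), ν⟫ = 0)

/-- The squared Hilbert-Schmidt norm. -/
def hs {n m : ℕ} (L : Lin n m) : ℝ := ∑ i : Fin n, ‖ap L (bv i)‖ ^ 2

/-- The map `G` is the weak derivative of `u` on the ball of radius two. -/
def IsWeakDeriv {n m : ℕ} (u : E n → E m) (G : E n → Lin n m) : Prop :=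
  ∀ φ : E n → ℝ, IsTest φ → ∀ v : E n, ∫ x, pdr φ x v • u x = - ∫ x, φ x • ap (G x) v

/-- The map `u` lies in `W^{1,2}(B_2, R^m)` and `G` is its weak derivative. -/
def IsSobolev {n m : ℕ} (u : E n → E m) (G : E n → Lin n m) : Prop :=
  MemLp u 2 (volume.restrict (ball (0 : E n) 2)) ∧
  (∀ i : Fin n, MemLp (fun x => ap (G x) (bv i)) 2 (volume.restrict (ball (0 : E n) 2))) ∧
  IsWeakDeriv u G

/-- The weak form of `-Δu = A(u)(∇u, ∇u)` on the ball of radius two. -/
def IsHarmonic {n m : ℕ} (A : E m → Bil m) (u : E n → E m) (G : E n → Lin n m) : Prop :=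
  ∀ φ : E n → ℝ, IsTest φ →
    ∫ x, ∑ i : Fin n, pdr φ x (bv i) • ap (G x) (bv i) =
      ∫ x, φ x • ∑ i : Fin n, ap2 (A (u x)) (ap (G x) (bv i)) (ap (G x) (bv i))

/-- The density `|∇u|² div X - 2 ⟨∂_i u, ∂_j u⟩ ∂_i X^j`. -/
def stress {n m : ℕ} (L : Lin n m) (X : E n → E n) (x : E n) : ℝ :=
  hs L * ∑ i : Fin n, (pd X x (bv i)) i
    - 2 * ∑ i : Fin n, ∑ j : Fin n, ⟪ap L (bv i), ap L (bv j)⟫ * (pd X x (bv i)) j

/-- Stationarity: the energy is stationary under variations of the domain `B_2`. -/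
def IsStationary {n m : ℕ} (G : E n → Lin n m) : Prop :=
  ∀ X : E n → E n, IsTest X → ∫ x, stress (G x) X x = 0

/-- Stationary harmonic maps `u` in `W^{1,2}(B_2, N)`, with weak derivative `G`. -/
def StatHarm {n m : ℕ} (N : Set (E m)) (A : E m → Bil m) (u : E n → E m) (G : E n → Lin n m) : Prop :=
  IsSobolev u G ∧ (∀ᵐ x ∂(volume.restrict (ball (0 : E n) 2)), u x ∈ N) ∧ IsHarmonic A u G ∧
    IsStationary G

/-- The energy on the ball of radius two. -/
def energy {n m : ℕ} (G : E n → Lin n m) : ℝ := ∫ x in ball (0 : E n) 2, hs (G x)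

/-- The map `u` is smooth with `ρ |∇u| ≤ δ` on the neck. -/
def SmallOn {d m : ℕ} (δ : ℝ) (r : E d → ℝ) (u : E (d + 2) → E m) : Prop :=
  ContDiffOn ℝ ∞ u (neck r) ∧
    ∀ x ∈ neck r, rho x * Real.sqrt (∑ i : Fin (d + 2), ‖pd u x (bv i)‖ ^ 2) ≤ δ

/-- The Euclidean norm of the (classical) Hessian. -/
def hess {n m : ℕ} (u : E n → E m) (x : E n) : ℝ :=
  Real.sqrt (∑ i : Fin n, ∑ j : Fin n, ‖pd (fun y => pd u y (bv j)) x (bv i)‖ ^ 2)

/-- The integral of `|∇²u|` over the part `ρ > 2 r(z)` of the unit ball. -/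
def hessInt {d m : ℕ} (r : E d → ℝ) (u : E (d + 2) → E m) : ℝ≥0∞ :=
  ∫⁻ x in {x | x ∈ ball (0 : E (d + 2)) 1 ∧ 2 * r (zp x) < rho x}, ENNReal.ofReal (hess u x)

theorem IsSecond.old {m : ℕ} {N : Set (E m)} {A : E m → Bil m} (h : IsSecond N A) : IsSFF N A := by
  obtain ⟨h1, h2, h3⟩ := h
  refine ⟨?_, fun q hq v w τ hv hw hτ => h2 q hq v w hv hw τ hτ, fun γ a b ν c => h3 γ a b ν c⟩
  refine continuousOn_clm_apply.2 fun v => continuousOn_clm_apply.2 fun w => ?_
  exact h1 v w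

/-- The linear map `w ↦ (v ↦ v_i w)`. -/
def smr {n m : ℕ} (i : Fin n) : E m →L[ℝ] (E n →L[ℝ] E m) :=
  ContinuousLinearMap.smulRightL ℝ (E n) (E m) (EuclideanSpace.proj i : E n →L[ℝ] ℝ)

theorem smr_apply {n m : ℕ} (i : Fin n) (w : E m) (v : E n) :
    smr i w v = v i • w := rfl

theorem sum_smr {n m : ℕ} (L : E n →L[ℝ] E m) : L = ∑ i : Fin n, smr i (L (bv i)) := by
  ext1 v
  rw [ContinuousLinearMap.sum_apply]
  have hv : v = ∑ i : Fin n, (v i) • (bv i : E n) := by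
    ext j
    simp [bv, Pi.single_apply]
  conv_lhs => rw [hv]
  rw [map_sum]
  refine Finset.sum_congr rfl fun i _ => ?_
  rw [map_smul, smr_apply]

theorem memLp_sum_clm {n : ℕ} {X F H : Type*} [MeasurableSpace X] [NormedAddCommGroup F]
    [NormedSpace ℝ F] [NormedAddCommGroup H] [NormedSpace ℝ H] {μ : Measure X}
    (S : Fin n → F →L[ℝ] H) (g : Fin n → X → F) (h : ∀ i, MemLp (g i) 2 μ) :
    MemLp (fun x => ∑ i : Fin n, S i (g i x)) 2 μ := by
  refine memLp_finsetSum Finset.univ fun i _ => ?_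
  exact (S i).comp_memLp' (h i)

theorem memLp_of_ap {n m : ℕ} {G : E n → E n →L[ℝ] E m} {μ : Measure (E n)}
    (h : ∀ i : Fin n, MemLp (fun x => G x (bv i)) 2 μ) : MemLp G 2 μ := by
  have key : G = fun x => ∑ i : Fin n, smr i (G x (bv i)) := by
    funext x
    exact sum_smr (G x)
  rw [key]
  exact memLp_sum_clm (fun i => smr i) (fun i x => G x (bv i)) h

theorem StatHarm.old {n m : ℕ} {N : Set (E m)} {A : E m → Bil m} {u : E n → E m}
    {G : E n → Lin n m} (h : StatHarm N A u G) : StationaryHarmonic N A u G := by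
  obtain ⟨⟨h1, h2, h3⟩, h4, h5, h6⟩ := h
  exact ⟨⟨h1, memLp_of_ap h2, fun φ hφ v => h3 φ hφ v⟩, h4, fun φ hφ => h5 φ hφ,
    fun X hX => h6 X hX⟩

end

end Pool.Agent.H87.SN
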