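import Pool.Agent.H87.SN.CV2

/-! Row CSF of the board snk (MP_2697e3_an): Cauchy-Schwarz. -/

namespace Pool.Agent.H87.SN

open MeasureTheory Metric Set Filter Topology
open scoped ContDiff RealInnerProductSpace ENNReal

theorem rho_cont {d : ℕ} : Continuous (fun x : E (d + 2) => rho x) := by
  unfold rho; fun_prop

theorem hsq_cont {n m : ℕ} {u : E n → E m} {U : Set (E n)} (hU : IsOpen U)
    (hu : ContDiffOn ℝ ∞ u U) : ContinuousOn (hsq u) U := by
  have h1 : ContDiffOn ℝ ∞ (fderiv ℝ u) U := hu.fderiv_of_isOpen hU (by norm_num)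
  have h2 : ContDiffOn ℝ ∞ (fderiv ℝ (fderiv ℝ u)) U := h1.fderiv_of_isOpen hU (by norm_num)
  have h3 : ContinuousOn (fderiv ℝ (fderiv ℝ u)) U := h2.continuousOn
  unfold hsq
  exact continuousOn_finsetSum _ fun i _ => continuousOn_finsetSum _ fun j _ =>
    (((h3.clm_apply continuousOn_const).clm_apply continuousOn_const).norm.pow 2)

theorem hsq_nonneg {n m : ℕ} (u : E n → E m) (x : E n) : 0 ≤ hsq u x := by
  unfold hsq; positivity

theorem hess_eq {n m : ℕ} {u : E n → E m} {U : Set (E n)} (hU : IsOpen U)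
    (hu : ContDiffOn ℝ ∞ u U) {x : E n} (hx : x ∈ U) : hessNorm u x = Real.sqrt (hsq u x) := by
  have h1 : ContDiffOn ℝ ∞ (fderiv ℝ u) U := hu.fderiv_of_isOpen hU (by norm_num)
  have h2 : DifferentiableAt ℝ (fderiv ℝ u) x :=
    (h1.differentiableOn (by simp)).differentiableAt (hU.mem_nhds hx)
  unfold hessNorm hsq
  congr 1
  refine Finset.sum_congr rfl fun i _ => Finset.sum_congr rfl fun j _ => ?_
  have h3 : HasFDerivAt (fun y => fderiv ℝ u y (bv j))
      ((ContinuousLinearMap.apply ℝ (E m) (bv j)).comp (fderiv ℝ (fderiv ℝ u) x)) x :=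
    (ContinuousLinearMap.apply ℝ (E m) (bv j)).hasFDerivAt.comp x h2.hasFDerivAt
  rw [h3.fderiv]
  rfl

theorem pf_CSF : T_CSF := by
  intro d m r w u a c ha hc hr hr0 hu hw hw0 h1 h2
  set S : Set (E (d + 2)) := {x | x ∈ ball (0 : E (d + 2)) 1 ∧ 2 * r (zp x) < rho x} with hS
  have hzc : Continuous (fun x : E (d + 2) => zp x) := (zpL d).continuous
  have hSo : IsOpen S := by
    rw [hS]
    exact isOpen_ball.inter (isOpen_lt (continuous_const.mul (hr.comp hzc)) rho_cont)
  have hNo : IsOpen (neck r : Set (E (d + 2))) := by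
    unfold neck
    exact isOpen_ball.inter (isOpen_lt (hr.comp hzc) rho_cont)
  have hSN : S ⊆ neck r := by
    intro x hx
    refine ⟨ball_subset_ball (by norm_num) hx.1, ?_⟩
    have := hr0 (zp x)
    have := hx.2
    show r (zp x) < rho x
    linarith
  have hSp : ∀ x ∈ S, 0 < rho x := fun x hx => by
    have := hr0 (zp x)
    have := hx.2
    linarith
  have hcw : ContinuousOn (fun x => rho x ^ 2 * w x) S :=
    (rho_cont.pow 2).continuousOn.mul (hw.mono fun x hx => hSp x hx)
  have hch : ContinuousOn (hsq u) S := (hsq_cont hNo hu).mono hSN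
  have m1 : AEMeasurable (fun x => ENNReal.ofReal (Real.sqrt (rho x ^ 2 * w x * hsq u x)))
      (volume.restrict S) :=
    ((hcw.mul hch).sqrt.aemeasurable hSo.measurableSet).ennreal_ofReal
  have m2 : AEMeasurable (fun x => ENNReal.ofReal (Real.sqrt ((rho x ^ 2 * w x)⁻¹)))
      (volume.restrict S) := by
    refine (ContinuousOn.aemeasurable ?_ hSo.measurableSet).ennreal_ofReal
    refine (hcw.inv₀ fun x hx => ?_).sqrt
    have := hSp x hx
    have := hw0 x this
    positivity
  have key := ENNReal.lintegral_mul_le_Lp_mul_Lq (volume.restrict S)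
    (show (2 : ℝ).HolderConjugate 2 by constructor <;> norm_num) m1 m2
  have e0 : ∫⁻ x in S, ENNReal.ofReal (hessNorm u x) =
      ∫⁻ x in S, ((fun x => ENNReal.ofReal (Real.sqrt (rho x ^ 2 * w x * hsq u x))) *
        fun x => ENNReal.ofReal (Real.sqrt ((rho x ^ 2 * w x)⁻¹))) x := by
    refine setLIntegral_congr_fun hSo.measurableSet fun x hx => ?_
    have p1 := hSp x hx
    have p2 := hw0 x p1
    simp only [Pi.mul_apply]
    rw [← ENNReal.ofReal_mul (Real.sqrt_nonneg _), ← Real.sqrt_mul' _ (by positivity),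
      hess_eq hNo hu (hSN hx)]
    congr 2
    have : rho x ^ 2 * w x ≠ 0 := by positivity
    field_simp
  have e1 : ∀ x ∈ S, (ENNReal.ofReal (Real.sqrt (rho x ^ 2 * w x * hsq u x))) ^ (2 : ℝ) =
      ENNReal.ofReal (rho x ^ 2 * w x * hsq u x) := by
    intro x hx
    have p1 := hSp x hx
    have p2 := hw0 x p1
    have p3 := hsq_nonneg u x
    rw [ENNReal.ofReal_rpow_of_nonneg (Real.sqrt_nonneg _) (by norm_num)]
    congr 1
    rw [Real.rpow_two, Real.sq_sqrt (by positivity)]
  have e2 : ∀ x ∈ S, (ENNReal.ofReal (Real.sqrt ((rho x ^ 2 * w x)⁻¹))) ^ (2 : ℝ) =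
      ENNReal.ofReal ((rho x ^ 2 * w x)⁻¹) := by
    intro x hx
    have p1 := hSp x hx
    have p2 := hw0 x p1
    rw [ENNReal.ofReal_rpow_of_nonneg (Real.sqrt_nonneg _) (by norm_num)]
    congr 1
    rw [Real.rpow_two, Real.sq_sqrt (by positivity)]
  rw [setLIntegral_congr_fun hSo.measurableSet e1,
    setLIntegral_congr_fun hSo.measurableSet e2] at key
  rw [e0]
  refine key.trans ?_
  calc _ ≤ (ENNReal.ofReal a) ^ (1 / (2 : ℝ)) * (ENNReal.ofReal c) ^ (1 / (2 : ℝ)) := by
        gcongr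
    _ = ENNReal.ofReal (Real.sqrt (a * c)) := by
        rw [ENNReal.ofReal_rpow_of_nonneg ha (by norm_num),
          ENNReal.ofReal_rpow_of_nonneg hc (by norm_num),
          ← ENNReal.ofReal_mul (by positivity), ← Real.sqrt_eq_rpow, ← Real.sqrt_eq_rpow,
          ← Real.sqrt_mul ha]

end Pool.Agent.H87.SN
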