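import Pool.Agent.H87.SN.Tools

/-! Row CV2 of the board snk (MP_2697e3_an): chain rule for functions of `(ρ, z)`. -/

namespace Pool.Agent.H87.SN

open MeasureTheory Metric Set Filter Topology
open scoped ContDiff RealInnerProductSpace

/-- The map `zp` as a continuous linear map. -/
noncomputable def zpL (d : ℕ) : E (d + 2) →L[ℝ] E d := LinearMap.toContinuousLinearMap
  { toFun := fun x => zp x
    map_add' := by intro x y; ext i; simp [zp]
    map_smul' := by intro c x; ext i; simp [zp] }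

theorem zpL_apply {d : ℕ} (x : E (d + 2)) : zpL d x = zp x := rfl

theorem rho_sq {d : ℕ} (x : E (d + 2)) : rho x ^ 2 = x 0 ^ 2 + x 1 ^ 2 := by
  unfold rho; rw [Real.sq_sqrt (by positivity)]

/-- The derivative of `rho`. -/
theorem rho_hasFDeriv {d : ℕ} {x : E (d + 2)} (hx : 0 < rho x) :
    HasFDerivAt (fun y : E (d + 2) => rho y)
      ((rho x)⁻¹ • (x 0 • (EuclideanSpace.proj 0 : E (d + 2) →L[ℝ] ℝ) +
        x 1 • (EuclideanSpace.proj 1 : E (d + 2) →L[ℝ] ℝ))) x := by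
  have h0 : HasFDerivAt (fun y : E (d + 2) => y 0) (EuclideanSpace.proj 0 : E (d + 2) →L[ℝ] ℝ) x :=
    (EuclideanSpace.proj 0 : E (d + 2) →L[ℝ] ℝ).hasFDerivAt
  have h1 : HasFDerivAt (fun y : E (d + 2) => y 1) (EuclideanSpace.proj 1 : E (d + 2) →L[ℝ] ℝ) x :=
    (EuclideanSpace.proj 1 : E (d + 2) →L[ℝ] ℝ).hasFDerivAt
  have h2 := (h0.pow 2).add (h1.pow 2)
  have hp : x 0 ^ 2 + x 1 ^ 2 ≠ 0 := by
    rw [← rho_sq]; positivity
  have h3 := h2.sqrt hp
  have e : HasFDerivAt (fun y : E (d + 2) => rho y)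
      ((1 / (2 * Real.sqrt (x 0 ^ 2 + x 1 ^ 2))) •
        ((2 • x 0 ^ (2 - 1)) • (EuclideanSpace.proj 0 : E (d + 2) →L[ℝ] ℝ) +
        (2 • x 1 ^ (2 - 1)) • (EuclideanSpace.proj 1 : E (d + 2) →L[ℝ] ℝ))) x := h3
  refine e.congr_fderiv ?_
  have hr : Real.sqrt (x 0 ^ 2 + x 1 ^ 2) = rho x := rfl
  rw [hr]
  ext v
  have hx' : rho x ≠ 0 := hx.ne'
  simp
  field_simp

theorem rho_contDiffAt {d : ℕ} {x : E (d + 2)} (hx : 0 < rho x) :
    ContDiffAt ℝ 1 (fun y : E (d + 2) => rho y) x := by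
  have hp : x 0 ^ 2 + x 1 ^ 2 ≠ 0 := by
    rw [← rho_sq]; positivity
  have h : ContDiffAt ℝ 1 (fun y : E (d + 2) => y 0 ^ 2 + y 1 ^ 2) x := by fun_prop
  exact h.sqrt hp

theorem pf_CV2 (_hLA1 : T_LA1) : T_CV2 := by
  intro d W hW
  have hO : IsOpen {p : ℝ × E d | 0 < p.1} := isOpen_lt continuous_const continuous_fst
  constructor
  · intro x hx
    have h1 : ContDiffAt ℝ 1 (fun y : E (d + 2) => (rho y, zp y)) x :=
      (rho_contDiffAt hx).prodMk ((zpL d).contDiff.contDiffAt)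
    have h2 : ContDiffAt ℝ 1 W (rho x, zp x) := hW.contDiffAt (hO.mem_nhds hx)
    exact (ContDiffAt.comp x h2 h1).contDiffWithinAt
  · intro x hx
    have h1 : HasFDerivAt (fun y : E (d + 2) => (rho y, zp y))
        (((rho x)⁻¹ • (x 0 • (EuclideanSpace.proj 0 : E (d + 2) →L[ℝ] ℝ) +
        x 1 • (EuclideanSpace.proj 1 : E (d + 2) →L[ℝ] ℝ))).prod (zpL d)) x :=
      (rho_hasFDeriv hx).prodMk ((zpL d).hasFDerivAt)
    have h2 : HasFDerivAt W (fderiv ℝ W (rho x, zp x)) (rho x, zp x) :=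
      ((hW.differentiableOn (by norm_num)).differentiableAt (hO.mem_nhds hx)).hasFDerivAt
    have h3 : HasFDerivAt (fun y : E (d + 2) => W (rho y, zp y)) _ x := h2.comp x h1
    rw [gsq_eq, h3.fderiv]
    have hv : ∀ v : E (d + 2), ((fderiv ℝ W (rho x, zp x)).comp
        (((rho x)⁻¹ • (x 0 • (EuclideanSpace.proj 0 : E (d + 2) →L[ℝ] ℝ) +
        x 1 • (EuclideanSpace.proj 1 : E (d + 2) →L[ℝ] ℝ))).prod (zpL d))) v =
        (rho x)⁻¹ * (x 0 * v 0 + x 1 * v 1) * fderiv ℝ W (rho x, zp x) (1, 0) +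
          fderiv ℝ W (rho x, zp x) (0, zp v) := by
      intro v
      have e : ((((rho x)⁻¹ • (x 0 • (EuclideanSpace.proj 0 : E (d + 2) →L[ℝ] ℝ) +
        x 1 • (EuclideanSpace.proj 1 : E (d + 2) →L[ℝ] ℝ))).prod (zpL d)) v : ℝ × E d) =
          ((rho x)⁻¹ * (x 0 * v 0 + x 1 * v 1)) • ((1 : ℝ), (0 : E d)) + ((0 : ℝ), zp v) := by
        ext
        · simp
          ring
        · simp [zpL_apply]
      rw [ContinuousLinearMap.comp_apply, e, map_add, map_smul, smul_eq_mul]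
    simp only [hv]
    rw [Fin.sum_univ_succ, Fin.sum_univ_succ]
    have z0 : zp (bv (0 : Fin (d + 2))) = 0 := by
      ext i; simp [zp, bv, Pi.single_apply, Fin.ext_iff]
    have z1 : zp (bv (Fin.succ (0 : Fin (d + 1)))) = 0 := by
      ext i; simp [zp, bv, Pi.single_apply, Fin.ext_iff]
    have z2 : ∀ i : Fin d, zp (bv i.succ.succ) = bv i := by
      intro i; ext j; simp [zp, bv, Pi.single_apply, Fin.ext_iff]
    have b00 : (bv (0 : Fin (d + 2)) : E (d + 2)) 0 = 1 := by simp [bv]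
    have b01 : (bv (0 : Fin (d + 2)) : E (d + 2)) 1 = 0 := by
      simp [bv, Pi.single_apply]
    have b10 : (bv (Fin.succ (0 : Fin (d + 1))) : E (d + 2)) 0 = 0 := by
      simp [bv, Pi.single_apply]
    have b11 : (bv (Fin.succ (0 : Fin (d + 1))) : E (d + 2)) 1 = 1 := by
      simp [bv, Pi.single_apply]
    have b20 : ∀ i : Fin d, (bv i.succ.succ : E (d + 2)) 0 = 0 := by
      intro i; simp [bv, Pi.single_apply, Fin.ext_iff]
    have b21 : ∀ i : Fin d, (bv i.succ.succ : E (d + 2)) 1 = 0 := by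
      intro i; simp [bv, Pi.single_apply, Fin.ext_iff]
    simp only [z0, z1, z2, b00, b01, b10, b11, b20, b21]
    have hx' : rho x ≠ 0 := hx.ne'
    have hs := rho_sq x
    have m0 : fderiv ℝ W (rho x, zp x) ((0 : ℝ), (0 : E d)) = 0 := by
      rw [show ((0 : ℝ), (0 : E d)) = 0 from rfl, map_zero]
    rw [m0]
    have hk : ((rho x)⁻¹ * (x 0 * 1 + x 1 * 0) * fderiv ℝ W (rho x, zp x) (1, 0) + 0) ^ 2 +
        ((rho x)⁻¹ * (x 0 * 0 + x 1 * 1) * fderiv ℝ W (rho x, zp x) (1, 0) + 0) ^ 2 =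
        fderiv ℝ W (rho x, zp x) (1, 0) ^ 2 := by
      have : (x 0 ^ 2 + x 1 ^ 2) * (rho x)⁻¹ ^ 2 = 1 := by
        rw [← hs]; field_simp
      linear_combination (fderiv ℝ W (rho x, zp x) (1, 0)) ^ 2 * this
    rw [← add_assoc, hk]
    simp
end Pool.Agent.H87.SN
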