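import Mathlib

/-! Straight necks of stationary harmonic maps (MP_2697e3_an): definitions. -/

namespace Pool.Agent.H87.SN

open MeasureTheory Metric Set Filter Topology
open scoped ContDiff RealInnerProductSpace

noncomputable section

/-- Euclidean space. -/
abbrev E (n : ℕ) := EuclideanSpace ℝ (Fin n)

/-- The standard basis vectors. -/
def bv {n : ℕ} (i : Fin n) : E n := EuclideanSpace.single i (1 : ℝ)

/-- Squared Hilbert-Schmidt norm of a linear map: the sum of the squared norms of the partial derivatives. -/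
def nsq {n : ℕ} {F : Type*} [NormedAddCommGroup F] [NormedSpace ℝ F] (L : E n →L[ℝ] F) : ℝ :=
  ∑ i : Fin n, ‖L (bv i)‖ ^ 2

/-- The vector `v` is the velocity at `q` of a curve of class `C^2` in `N`. -/
def IsTangent {m : ℕ} (N : Set (E m)) (q v : E m) : Prop :=
  ∃ γ : ℝ → E m, ContDiffAt ℝ 2 γ 0 ∧ (∀ᶠ s in 𝓝 (0 : ℝ), γ s ∈ N) ∧ γ 0 = q ∧ deriv γ 0 = v

/-- `A` is the second fundamental form of `N` in `R^m` (with the sign in which geodesics solve
`-γ'' = A(γ)(γ', γ')`): continuous on `N`, normal on tangent vectors, and `γ'' + A(γ)(γ',γ')` is orthogonal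
to all normal vectors for every curve `γ` in `N`. -/
structure IsSFF {m : ℕ} (N : Set (E m)) (A : E m → E m →L[ℝ] E m →L[ℝ] E m) : Prop where
  continuousOn : ContinuousOn A N
  normal : ∀ q ∈ N, ∀ v w τ : E m, IsTangent N q v → IsTangent N q w → IsTangent N q τ →
    ⟪A q v w, τ⟫ = 0
  curve : ∀ γ : ℝ → E m, ContDiffAt ℝ 2 γ 0 → (∀ᶠ s in 𝓝 (0 : ℝ), γ s ∈ N) →
    ∀ ν : E m, (∀ τ : E m, IsTangent N (γ 0) τ → ⟪ν, τ⟫ = 0) →
      ⟪deriv (deriv γ) 0 + A (γ 0) (deriv γ 0) (deriv γ 0), ν⟫ = 0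

/-- Test functions: smooth with compact support in the ball of radius two. -/
def IsTest {n : ℕ} {F : Type*} [NormedAddCommGroup F] [NormedSpace ℝ F] (φ : E n → F) : Prop :=
  ContDiff ℝ ∞ φ ∧ HasCompactSupport φ ∧ tsupport φ ⊆ ball 0 2

/-- The map `u` lies in `W^{1,2}(B_2, R^m)` and `G` is its weak derivative. -/
structure IsW12 {n m : ℕ} (u : E n → E m) (G : E n → E n →L[ℝ] E m) : Prop where
  memLp : MemLp u 2 (volume.restrict (ball (0 : E n) 2))
  memLp_deriv : MemLp G 2 (volume.restrict (ball (0 : E n) 2))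
  weak : ∀ φ : E n → ℝ, IsTest φ → ∀ v : E n,
    ∫ x, (fderiv ℝ φ x v) • u x = - ∫ x, φ x • G x v

/-- Stationary harmonic maps `u` in `W^{1,2}(B_2, N)`, with weak derivative `G`. -/
structure StationaryHarmonic {n m : ℕ} (N : Set (E m)) (A : E m → E m →L[ℝ] E m →L[ℝ] E m)
    (u : E n → E m) (G : E n → E n →L[ℝ] E m) : Prop where
  w12 : IsW12 u G
  mem : ∀ᵐ x ∂(volume.restrict (ball (0 : E n) 2)), u x ∈ N
  harmonic : ∀ φ : E n → ℝ, IsTest φ →
    ∫ x, ∑ i : Fin n, (fderiv ℝ φ x (bv i)) • G x (bv i) =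
      ∫ x, φ x • ∑ i : Fin n, A (u x) (G x (bv i)) (G x (bv i))
  stationary : ∀ X : E n → E n, IsTest X →
    ∫ x, (nsq (G x) * ∑ i : Fin n, (fderiv ℝ X x (bv i)) i
      - 2 * ∑ i : Fin n, ∑ j : Fin n, ⟪G x (bv i), G x (bv j)⟫ * (fderiv ℝ X x (bv i)) j) = 0

/-- The distance to the plane `x_0 = x_1 = 0`. -/
def rho {d : ℕ} (x : E (d + 2)) : ℝ := Real.sqrt (x 0 ^ 2 + x 1 ^ 2)

/-- The last `d` coordinates. -/
def zp {d : ℕ} (x : E (d + 2)) : E d := WithLp.toLp 2 (fun i : Fin d => x i.succ.succ)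

/-- The neck: the part of the ball of radius two at distance more than `r(z)` from the plane. -/
def neck {d : ℕ} (r : E d → ℝ) : Set (E (d + 2)) := {x | x ∈ ball 0 2 ∧ r (zp x) < rho x}

/-- The Euclidean norm of the Hessian. -/
def hessNorm {n m : ℕ} (u : E n → E m) (x : E n) : ℝ :=
  Real.sqrt (∑ i : Fin n, ∑ j : Fin n, ‖fderiv ℝ (fun y => fderiv ℝ u y (bv j)) x (bv i)‖ ^ 2)

end

end Pool.Agent.H87.SN
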