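import Pool.Agent.H87.SN.CSF

/-! Row IN2 of the board snk (MP_2697e3_an): integrability of the weight in dimension three. -/

namespace Pool.Agent.H87.SN

open MeasureTheory Metric Set Filter Topology
open scoped ContDiff RealInnerProductSpace ENNReal

/-- The coordinate of a one-dimensional Euclidean space as a measurable equivalence. -/
noncomputable def eq1 : E 1 ≃ᵐ ℝ :=
  (MeasurableEquiv.toLp 2 (Fin 1 → ℝ)).symm.trans (MeasurableEquiv.funUnique (Fin 1) ℝ)

theorem eq1_apply (z : E 1) : eq1 z = z 0 := rfl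

theorem eq1_mp : MeasurePreserving eq1 volume volume := by
  have h1 := (EuclideanSpace.volume_preserving_symm_measurableEquiv_toLp (Fin 1))
  have h2 := volume_preserving_funUnique (Fin 1) ℝ
  exact h2.comp h1

theorem single_eq (z : E 1) : EuclideanSpace.single 0 (z 0) = z := by
  ext i
  have : i = 0 := Subsingleton.elim _ _
  subst this
  simp

theorem pf_IN2 (hPOL : T_POL) (hJC1 : T_JC1) (hJIN : T_JIN) : T_IN2 := by
  intro M
  obtain ⟨C, hC, hJ⟩ := hJIN M
  refine ⟨4 * Real.pi + 2 * Real.pi * C, by positivity, fun r hr1 hr0 hrM => ?_⟩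
  set r1 : ℝ → ℝ := fun t => r (EuclideanSpace.single 0 t) with hr1d
  have hpi := Real.pi_pos
  have hLs : ∀ t : ℝ, HasDerivAt (fun t : ℝ => (EuclideanSpace.single 0 t : E 1))
      (EuclideanSpace.single 0 1) t := by
    intro t
    have h1 : HasDerivAt (fun t : ℝ => t • (EuclideanSpace.single 0 (1 : ℝ) : E 1))
        ((1 : ℝ) • (EuclideanSpace.single 0 (1 : ℝ) : E 1)) t :=
      (hasDerivAt_id t).smul_const _
    rw [one_smul] at h1
    refine h1.congr_of_eventuallyEq (Eventually.of_forall fun s => ?_)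
    ext i
    have : i = 0 := Subsingleton.elim _ _
    subst this
    simp
  have hLc : ContDiff ℝ 1 (fun t : ℝ => (EuclideanSpace.single 0 t : E 1)) := by
    have : (fun t : ℝ => (EuclideanSpace.single 0 t : E 1)) =
        fun t : ℝ => t • (EuclideanSpace.single 0 (1 : ℝ) : E 1) := by
      funext t; ext i
      have : i = 0 := Subsingleton.elim _ _
      subst this
      simp
    rw [this]; fun_prop
  have hc1 : ContDiff ℝ 1 r1 := hr1.comp hLc
  have hd1 : ∀ t, |deriv r1 t| ≤ M := by
    intro t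
    have h1 : HasDerivAt r1 (fderiv ℝ r (EuclideanSpace.single 0 t) (EuclideanSpace.single 0 1)) t :=
      ((hr1.differentiable (by norm_num)) _).hasFDerivAt.comp_hasDerivAt t (hLs t)
    rw [h1.deriv]
    have h2 := (fderiv ℝ r (EuclideanSpace.single 0 t)).le_opNorm (EuclideanSpace.single 0 1)
    have h3 : ‖(EuclideanSpace.single 0 (1 : ℝ) : E 1)‖ = 1 := by simp
    rw [h3, mul_one, Real.norm_eq_abs] at h2
    exact h2.trans (hrM _)
  have hp1 : ∀ t, 0 < r1 t ∧ r1 t ≤ 1 := fun t => hr0 _
  obtain ⟨hJpos, hJcd, -, -⟩ := hJC1 r1 hc1.continuous (fun t => (hp1 t).1)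
  have hJint := hJ r1 hc1 hp1 hd1
  have hrz : ∀ z : E 1, r z = r1 (z 0) := fun z => by rw [hr1d]; simp only; rw [single_eq]
  -- the integrand
  set A : Set (ℝ × E 1) := {p | |p.2 0| < 1 ∧ 2 * r p.2 < p.1 ∧ p.1 < 1} with hA
  set g : ℝ × E 1 → ℝ≥0∞ := fun p =>
    ENNReal.ofReal ((p.1 ^ 2 * (p.1 + Jf r1 p.1 (p.2 0))⁻¹)⁻¹) with hg
  have hAo : IsOpen A := by
    have c1 : Continuous fun p : ℝ × E 1 => |p.2 0| := by fun_prop
    have c2 : Continuous fun p : ℝ × E 1 => 2 * r p.2 :=
      continuous_const.mul (hr1.continuous.comp continuous_snd)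
    exact (isOpen_lt c1 continuous_const).inter
      ((isOpen_lt c2 continuous_fst).inter (isOpen_lt continuous_fst continuous_const))
  have hA0 : ∀ p ∈ A, 0 < p.1 := fun p hp => by
    have := (hr0 p.2).1
    have := hp.2.1
    linarith
  have hJc : ContinuousOn (fun p : ℝ × E 1 => Jf r1 p.1 (p.2 0)) A := by
    have h1 : ContinuousOn (fun p : ℝ × ℝ => Jf r1 p.1 p.2) {p | 0 < p.1} := hJcd.continuousOn
    have h2 : Continuous (fun p : ℝ × E 1 => (p.1, p.2 0)) := by fun_prop
    exact h1.comp h2.continuousOn fun p hp => hA0 p hp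
  have hgc : ContinuousOn g A := by
    refine ENNReal.continuous_ofReal.comp_continuousOn ?_
    have c1 : ContinuousOn (fun p : ℝ × E 1 => p.1 + Jf r1 p.1 (p.2 0)) A :=
      continuous_fst.continuousOn.add hJc
    refine ContinuousOn.inv₀ ((continuous_fst.pow 2).continuousOn.mul (c1.inv₀ fun p hp => ?_))
      fun p hp => ?_
    · have := hA0 p hp
      have := hJpos p.1 (p.2 0) (hA0 p hp)
      positivity
    · have := hA0 p hp
      have := hJpos p.1 (p.2 0) (hA0 p hp)
      positivity
  classical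
  set f : ℝ × E 1 → ℝ≥0∞ := A.piecewise g (fun _ => 0) with hf
  have hfm : Measurable f := hgc.measurable_piecewise continuousOn_const hAo.measurableSet
  -- first step
  have s1 : ∫⁻ x in {x | x ∈ ball (0 : E (1 + 2)) 1 ∧ 2 * r (zp x) < rho x},
      ENNReal.ofReal ((rho x ^ 2 *
        (rho x + Jf (fun t => r (EuclideanSpace.single 0 t)) (rho x) (zp x 0))⁻¹)⁻¹) ≤
      ∫⁻ x : E (1 + 2), f (rho x, zp x) := by
    rw [← lintegral_indicator]
    · refine lintegral_mono fun x => ?_
      by_cases hx : x ∈ {x | x ∈ ball (0 : E (1 + 2)) 1 ∧ 2 * r (zp x) < rho x}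
      · rw [indicator_of_mem hx]
        have hn : ‖x‖ < 1 := by simpa using hx.1
        have hn2 : ‖x‖ ^ 2 = x 0 ^ 2 + (x 1 ^ 2 + x 2 ^ 2) := by
          rw [EuclideanSpace.norm_sq_eq, Fin.sum_univ_succ, Fin.sum_univ_succ, Fin.sum_univ_succ]
          simp
        have hn3 : ‖x‖ ^ 2 < 1 := by
          have := norm_nonneg x
          nlinarith
        have hmem : (rho x, zp x) ∈ A := by
          refine ⟨?_, hx.2, ?_⟩
          · show |zp x 0| < 1
            have : zp x 0 = x 2 := rfl
            rw [this, abs_lt]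
            constructor <;> nlinarith [sq_nonneg (x 0), sq_nonneg (x 1)]
          · show rho x < 1
            have h2 := rho_sq x
            have h3 : 0 ≤ rho x := Real.sqrt_nonneg _
            nlinarith [sq_nonneg (x 2)]
        rw [hf, piecewise_eq_of_mem _ _ _ hmem]
      · rw [indicator_of_notMem hx]
        exact zero_le
    · have hzc : Continuous (fun x : E (1 + 2) => zp x) := (zpL 1).continuous
      exact (isOpen_ball.inter (isOpen_lt (continuous_const.mul (hr1.continuous.comp hzc))
        rho_cont)).measurableSet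
  -- polar coordinates
  have s2 := hPOL 1 f hfm
  -- inner integral
  set Fo : ℝ → ℝ≥0∞ := fun τ => (Ioo (-1 : ℝ) 1).indicator (fun _ => ENNReal.ofReal (2 * Real.pi)) τ +
    ENNReal.ofReal (2 * Real.pi) * ∫⁻ s in Ioi (r1 τ), ENNReal.ofReal (Jf r1 s τ / s) with hFo
  have s3 : ∀ z : E 1, ∫⁻ s in Ioi (0 : ℝ), ENNReal.ofReal (2 * Real.pi * s) * f (s, z) ≤
      Fo (z 0) := by
    intro z
    by_cases hz : |z 0| < 1
    · have hz' : z 0 ∈ Ioo (-1 : ℝ) 1 := by rwa [mem_Ioo, ← abs_lt]
      have hb : ∀ s ∈ Ioi (0 : ℝ), ENNReal.ofReal (2 * Real.pi * s) * f (s, z) ≤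
          (Ioo (0 : ℝ) 1).indicator (fun _ => ENNReal.ofReal (2 * Real.pi)) s +
          (Ioi (r1 (z 0))).indicator (fun s => ENNReal.ofReal (2 * Real.pi) *
            ENNReal.ofReal (Jf r1 s (z 0) / s)) s := by
        intro s hs
        by_cases hm : (s, z) ∈ A
        · have hs0 : 0 < s := hs
          have hs1 : s ∈ Ioo (0 : ℝ) 1 := ⟨hs, hm.2.2⟩
          have hs2 : s ∈ Ioi (r1 (z 0)) := by
            have h1 : 2 * r z < s := hm.2.1
            rw [hrz] at h1
            have := (hp1 (z 0)).1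
            show r1 (z 0) < s
            linarith
          have hj := hJpos s (z 0) hs0
          rw [hf, piecewise_eq_of_mem _ _ _ hm, indicator_of_mem hs1, indicator_of_mem hs2, hg]
          simp only
          rw [← ENNReal.ofReal_mul (by positivity), ← ENNReal.ofReal_mul (by positivity),
            ← ENNReal.ofReal_add (by positivity) (by positivity)]
          apply ENNReal.ofReal_le_ofReal
          apply le_of_eq
          have : s + Jf r1 s (z 0) ≠ 0 := by positivity
          field_simp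
        · rw [hf, piecewise_eq_of_notMem _ _ _ hm]
          simp
      calc ∫⁻ s in Ioi (0 : ℝ), ENNReal.ofReal (2 * Real.pi * s) * f (s, z)
          ≤ ∫⁻ s in Ioi (0 : ℝ), ((Ioo (0 : ℝ) 1).indicator (fun _ => ENNReal.ofReal (2 * Real.pi)) s +
          (Ioi (r1 (z 0))).indicator (fun s => ENNReal.ofReal (2 * Real.pi) *
            ENNReal.ofReal (Jf r1 s (z 0) / s)) s) := setLIntegral_mono' measurableSet_Ioi hb
        _ ≤ ∫⁻ s, ((Ioo (0 : ℝ) 1).indicator (fun _ => ENNReal.ofReal (2 * Real.pi)) s +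
          (Ioi (r1 (z 0))).indicator (fun s => ENNReal.ofReal (2 * Real.pi) *
            ENNReal.ofReal (Jf r1 s (z 0) / s)) s) := setLIntegral_le_lintegral _ _
        _ = (∫⁻ s, (Ioo (0 : ℝ) 1).indicator (fun _ => ENNReal.ofReal (2 * Real.pi)) s) +
          ∫⁻ s, (Ioi (r1 (z 0))).indicator (fun s => ENNReal.ofReal (2 * Real.pi) *
            ENNReal.ofReal (Jf r1 s (z 0) / s)) s :=
            lintegral_add_left (measurable_const.indicator measurableSet_Ioo) _
        _ = Fo (z 0) := by
            rw [lintegral_indicator measurableSet_Ioo, lintegral_indicator measurableSet_Ioi,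
              lintegral_const_mul' _ _ ENNReal.ofReal_ne_top, hFo]
            simp only
            rw [indicator_of_mem hz']
            congr 1
            simp
    · have : ∀ s ∈ Ioi (0 : ℝ), ENNReal.ofReal (2 * Real.pi * s) * f (s, z) = 0 := by
        intro s _
        have hm : (s, z) ∉ A := fun h => hz h.1
        rw [hf, piecewise_eq_of_notMem _ _ _ hm, mul_zero]
      rw [setLIntegral_congr_fun measurableSet_Ioi this]
      simp
  -- outer integral
  have s4 : ∫⁻ z : E 1, Fo (z 0) = ∫⁻ τ : ℝ, Fo τ :=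
    eq1_mp.lintegral_comp_emb eq1.measurableEmbedding Fo
  have s5 : ∫⁻ τ : ℝ, Fo τ ≤ ENNReal.ofReal (4 * Real.pi + 2 * Real.pi * C) := by
    rw [hFo, lintegral_add_left (measurable_const.indicator measurableSet_Ioo),
      lintegral_indicator measurableSet_Ioo, lintegral_const_mul' _ _ ENNReal.ofReal_ne_top,
      ENNReal.ofReal_add (by positivity) (by positivity),
      ENNReal.ofReal_mul (show (0 : ℝ) ≤ 2 * Real.pi by positivity) (q := C)]
    gcongr
    simp only [lintegral_const, Measure.restrict_apply MeasurableSet.univ, univ_inter,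
      Real.volume_Ioo]
    rw [← ENNReal.ofReal_mul (by positivity)]
    apply ENNReal.ofReal_le_ofReal
    linarith
  calc _ ≤ ∫⁻ x : E (1 + 2), f (rho x, zp x) := s1
    _ = _ := s2
    _ ≤ ∫⁻ z : E 1, Fo (z 0) := lintegral_mono s3
    _ = ∫⁻ τ : ℝ, Fo τ := s4
    _ ≤ _ := s5

end Pool.Agent.H87.SN
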