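import Pool.Agent.H87.SN.Targets

/-! Row WIR of the board snk (MP_2697e3_an): the Wirtinger inequality on the circle.
The real-valued version is copied from the module `Pool.Agent.H62.HN.Wirt`. -/

namespace Pool.Agent.H87.SN

open MeasureTheory Set Filter Topology Real
open scoped ContDiff RealInnerProductSpace

/-- the cotangent multiplier is continuous at points where both sides vanish -/
theorem cot_cont {h h1 : ℝ → ℝ} (hd : ∀ t, HasDerivAt h (h1 t) t) {c t : ℝ}
    (ht : sin (t - c) = 0 → h t = 0) :
    ContinuousAt (fun t => h t ^ 2 * (cos (t - c) / sin (t - c))) t := by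
  by_cases hs : sin (t - c) = 0
  · have h0 := ht hs
    rw [continuousAt_iff_punctured_nhds]
    have hc : cos (t - c) ≠ 0 := by
      intro hcc
      have := sin_sq_add_cos_sq (t - c)
      rw [hs, hcc] at this
      norm_num at this
    have hsd : HasDerivAt (fun t => sin (t - c)) (cos (t - c)) t := by
      have := (hasDerivAt_sin (t - c)).comp t ((hasDerivAt_id' t).sub_const c)
      simpa [Function.comp_def] using this
    have l1 := (hd t).tendsto_slope
    have l2 := hsd.tendsto_slope
    have l3 : Tendsto (fun w => h w * cos (w - c)) (𝓝[≠] t) (𝓝 (h t * cos (t - c))) := by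
      have : ContinuousAt (fun w => h w * cos (w - c)) t :=
        (hd t).continuousAt.mul (by fun_prop)
      exact this.tendsto.mono_left nhdsWithin_le_nhds
    have l4 := l3.mul (l1.div l2 hc)
    rw [h0] at l4
    simp only [zero_mul] at l4
    have e : (h t ^ 2 * (cos (t - c) / sin (t - c))) = 0 := by rw [h0]; ring
    simp only [e]
    refine l4.congr' ?_
    filter_upwards [self_mem_nhdsWithin] with w hw
    have hw' : w - t ≠ 0 := sub_ne_zero.mpr hw
    simp only [slope_def_field, h0, hs, sub_zero, Pi.div_apply]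
    rw [div_div_div_cancel_right₀ hw']
    ring
  · have : ContinuousAt (fun w => cos (w - c) / sin (w - c)) t :=
      ContinuousAt.div (by fun_prop) (by fun_prop) hs
    exact ((hd t).continuousAt.pow 2).mul this

theorem cot_piece {h h1 : ℝ → ℝ} (hd : ∀ t, HasDerivAt h (h1 t) t) (hc1 : Continuous h1)
    {a b c : ℝ} (hab : a ≤ b) (hv : ∀ t ∈ Icc a b, sin (t - c) = 0 → h t = 0)
    (hs : ∀ t ∈ Ioo a b, sin (t - c) ≠ 0) :
    h b ^ 2 * (cos (b - c) / sin (b - c)) - h a ^ 2 * (cos (a - c) / sin (a - c)) ≤
      ∫ t in a..b, (h1 t ^ 2 - h t ^ 2) := by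
  have hc : Continuous h := continuous_iff_continuousAt.mpr fun t => (hd t).continuousAt
  refine intervalIntegral.sub_le_integral_of_hasDeriv_right_of_le
    (g := fun t => h t ^ 2 * (cos (t - c) / sin (t - c)))
    (g' := fun t => 2 * h t * h1 t * (cos (t - c) / sin (t - c))
      + h t ^ 2 * ((-sin (t - c) * sin (t - c) - cos (t - c) * cos (t - c)) / sin (t - c) ^ 2))
    hab ?_ ?_ ?_ ?_
  · intro t ht
    exact (cot_cont hd (hv t ht)).continuousWithinAt
  · intro t ht
    have hsd : HasDerivAt (fun t => sin (t - c)) (cos (t - c)) t := by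
      have := (hasDerivAt_sin (t - c)).comp t ((hasDerivAt_id' t).sub_const c)
      simpa [Function.comp_def] using this
    have hcd : HasDerivAt (fun t => cos (t - c)) (-sin (t - c)) t := by
      have := (hasDerivAt_cos (t - c)).comp t ((hasDerivAt_id' t).sub_const c)
      simpa [Function.comp_def] using this
    have h2 : HasDerivAt (fun t => h t ^ 2) (2 * h t * h1 t) t := by
      simpa using (hd t).fun_pow 2
    exact (h2.mul (hcd.div hsd (hs t ht))).hasDerivWithinAt
  · exact (Continuous.continuousOn (by fun_prop)).integrableOn_Icc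
  · intro t ht
    have h3 := hs t ht
    have h4 := sin_sq_add_cos_sq (t - c)
    set σ := sin (t - c)
    set κ := cos (t - c)
    have h5 : h1 t ^ 2 - h t ^ 2 - (2 * h t * h1 t * (κ / σ)
        + h t ^ 2 * ((-σ * σ - κ * κ) / σ ^ 2)) = (h1 t - h t * (κ / σ)) ^ 2 := by
      field_simp
      ring
    have h6 := sq_nonneg (h1 t - h t * (κ / σ))
    show 2 * h t * h1 t * (κ / σ) + h t ^ 2 * ((-σ * σ - κ * κ) / σ ^ 2) ≤ h1 t ^ 2 - h t ^ 2
    linarith

/-- Wirtinger's inequality -/
theorem wirt : ∀ f f1 : ℝ → ℝ, (∀ t, HasDerivAt f (f1 t) t) → Continuous f1 →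
  f (-π) = f π → ∫ t in (-π)..π, f t = 0 →
  ∫ t in (-π)..π, f t ^ 2 ≤ ∫ t in (-π)..π, f1 t ^ 2 := by
  intro f f1 hd hc1 hper hint
  have hc : Continuous f := continuous_iff_continuousAt.mpr fun t => (hd t).continuousAt
  -- a point with `f c = f (c + π)`
  obtain ⟨c, hcI, hck⟩ : ∃ c ∈ Icc (-π) 0, f (c + π) = f c := by
    have hg : ContinuousOn (fun t => f (t + π) - f t) (Icc (-π) 0) := by fun_prop
    have hp : (-π : ℝ) ≤ 0 := by linarith [pi_pos]
    rcases le_total (f 0) (f π) with h | h
    · have := intermediate_value_Icc hp hg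
      have h0 : (0 : ℝ) ∈ Icc ((fun t => f (t + π) - f t) (-π)) ((fun t => f (t + π) - f t) 0) := by
        constructor
        · simp only [neg_add_cancel]; linarith
        · simp only [zero_add]; linarith
      obtain ⟨c, h1, h2⟩ := this h0
      exact ⟨c, h1, by simpa [sub_eq_zero] using h2⟩
    · have := intermediate_value_Icc' hp hg
      have h0 : (0 : ℝ) ∈ Icc ((fun t => f (t + π) - f t) 0) ((fun t => f (t + π) - f t) (-π)) := by
        constructor
        · simp only [zero_add]; linarith
        · simp only [neg_add_cancel]; linarith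
      obtain ⟨c, h1, h2⟩ := this h0
      exact ⟨c, h1, by simpa [sub_eq_zero] using h2⟩
  set k := f c with hk
  have hdh : ∀ t, HasDerivAt (fun t => f t - k) (f1 t) t := fun t => (hd t).sub_const k
  have hpi := pi_pos
  -- zeros of the sine in the range
  have hzero : ∀ t ∈ Icc (-π) π, sin (t - c) = 0 → f t - k = 0 := by
    intro t ht hs
    rw [sin_eq_zero_iff] at hs
    obtain ⟨n, hn⟩ := hs
    have hn1 : (-1 : ℝ) ≤ n := by
      by_contra h
      push Not at h
      have h1 : (n : ℝ) * π < -1 * π := mul_lt_mul_of_pos_right h hpi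
      linarith [ht.1, hcI.2]
    have hn2 : (n : ℝ) ≤ 2 := by
      by_contra h
      push Not at h
      have h1 : 2 * π < (n : ℝ) * π := mul_lt_mul_of_pos_right h hpi
      linarith [ht.2, hcI.1]
    have hn1' : (-1 : ℤ) ≤ n := by exact_mod_cast hn1
    have hn2' : n ≤ 2 := by exact_mod_cast hn2
    have hcases : n = -1 ∨ n = 0 ∨ n = 1 ∨ n = 2 := by omega
    rcases hcases with rfl | rfl | rfl | rfl
    · have h1 : c = 0 := by
        push_cast at hn
        linarith [ht.1, hcI.2]
      have h2 : t = -π := by
        push_cast at hn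
        linarith
      rw [h1, zero_add] at hck
      rw [h2, hper, hck, sub_self]
    · have h1 : t = c := by
        push_cast at hn
        linarith
      rw [hk, h1]; ring
    · have h1 : t = c + π := by
        push_cast at hn
        linarith
      rw [h1, hck, hk]; ring
    · have h1 : c = -π := by
        push_cast at hn
        linarith [ht.2, hcI.1]
      have h2 : t = π := by
        push_cast at hn
        linarith
      rw [hk, h1, h2, hper]; ring
  have hne : ∀ (n : ℤ) (t : ℝ), n * π < t - c → t - c < (n + 1) * π → sin (t - c) ≠ 0 := by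
    intro n t h1 h2 hs
    rw [sin_eq_zero_iff] at hs
    obtain ⟨m, hm⟩ := hs
    rw [← hm] at h1 h2
    have h3 : (n : ℝ) < m := lt_of_mul_lt_mul_right h1 hpi.le
    have h4 : (m : ℝ) < n + 1 := lt_of_mul_lt_mul_right h2 hpi.le
    have h3' : n < m := by exact_mod_cast h3
    have h4' : m < n + 1 := by exact_mod_cast h4
    omega
  have p1 := cot_piece hdh hc1 (a := -π) (b := c) (c := c) hcI.1
    (fun t ht => hzero t ⟨ht.1, by linarith [ht.2, hcI.2]⟩)
    (fun t ht => hne (-1) t (by push_cast; linarith [ht.1, hcI.2]) (by push_cast; linarith [ht.2]))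
  have p2 := cot_piece hdh hc1 (a := c) (b := c + π) (c := c) (by linarith)
    (fun t ht => hzero t ⟨by linarith [ht.1, hcI.1], by linarith [ht.2, hcI.2]⟩)
    (fun t ht => hne 0 t (by push_cast; linarith [ht.1]) (by push_cast; linarith [ht.2]))
  have p3 := cot_piece hdh hc1 (a := c + π) (b := π) (c := c) (by linarith [hcI.2])
    (fun t ht => hzero t ⟨by linarith [ht.1, hcI.1], ht.2⟩)
    (fun t ht => hne 1 t (by push_cast; linarith [ht.1]) (by push_cast; linarith [ht.2, hcI.1]))
  have hii : ∀ a b : ℝ, IntervalIntegrable (fun t => f1 t ^ 2 - (f t - k) ^ 2) volume a b :=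
    fun a b => (Continuous.intervalIntegrable (by fun_prop) a b)
  have e1 := intervalIntegral.integral_add_adjacent_intervals (hii (-π) c) (hii c (c + π))
  have e2 := intervalIntegral.integral_add_adjacent_intervals (hii (-π) (c + π)) (hii (c + π) π)
  -- boundary terms
  have b1 : cos (π - c) / sin (π - c) = cos (-π - c) / sin (-π - c) := by
    have h1 : π - c = (-π - c) + 2 * π := by ring
    rw [h1, cos_add_two_pi, sin_add_two_pi]
  have b2 : (f c - k) = 0 := by rw [hk]; ring
  have b3 : (f (c + π) - k) = 0 := by rw [hck, hk]; ring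
  have b4 : f π = f (-π) := hper.symm
  rw [b2] at p1 p2
  rw [b3] at p2 p3
  rw [b1, b4] at p3
  have hsum : 0 ≤ ∫ t in (-π)..π, (f1 t ^ 2 - (f t - k) ^ 2) := by
    rw [← e2, ← e1]
    nlinarith [p1, p2, p3]
  have hexp : ∫ t in (-π)..π, (f1 t ^ 2 - (f t - k) ^ 2) =
      (∫ t in (-π)..π, f1 t ^ 2) - (∫ t in (-π)..π, f t ^ 2) + 2 * k * (∫ t in (-π)..π, f t)
        - k ^ 2 * (2 * π) := by
    have i1 : IntervalIntegrable (fun t => f1 t ^ 2) volume (-π) π :=
      Continuous.intervalIntegrable (by fun_prop) _ _
    have i2 : IntervalIntegrable (fun t => f t ^ 2) volume (-π) π :=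
      Continuous.intervalIntegrable (by fun_prop) _ _
    have i3 : IntervalIntegrable (fun t => f t) volume (-π) π :=
      Continuous.intervalIntegrable (by fun_prop) _ _
    have i4 : IntervalIntegrable (fun _ : ℝ => k ^ 2) volume (-π) π :=
      Continuous.intervalIntegrable (by fun_prop) _ _
    have e : (fun t => f1 t ^ 2 - (f t - k) ^ 2) =
        fun t => (f1 t ^ 2 - f t ^ 2 + 2 * k * f t) - k ^ 2 := by
      funext t; ring
    rw [e, intervalIntegral.integral_sub ((i1.sub i2).add (i3.const_mul (2 * k))) i4,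
      intervalIntegral.integral_add (i1.sub i2) (i3.const_mul (2 * k)),
      intervalIntegral.integral_sub i1 i2, intervalIntegral.integral_const_mul,
      intervalIntegral.integral_const]
    simp only [smul_eq_mul]
    ring
  rw [hexp, hint] at hsum
  have : 0 ≤ k ^ 2 * (2 * π) := by positivity
  linarith


theorem pf_WIR : T_WIR := by
  intro m h hh hper hint
  have hd : ∀ t, HasDerivAt h (deriv h t) t := fun t =>
    (hh.differentiable (by norm_num) t).hasDerivAt
  have hdc : Continuous (deriv h) := hh.continuous_deriv (by norm_num)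
  have hc : Continuous h := hh.continuous
  have hci : ∀ i, Continuous (fun t => (h t) i) := fun i => by fun_prop
  have hdci : ∀ i, Continuous (fun t => (deriv h t) i) := fun i => by fun_prop
  have hdi : ∀ i t, HasDerivAt (fun t => (h t) i) ((deriv h t) i) t := by
    intro i t
    exact ((EuclideanSpace.proj i : E m →L[ℝ] ℝ).hasFDerivAt.comp_hasDerivAt t (hd t))
  have hint' : ∀ i, ∫ t in (0 : ℝ)..(2 * π), (h t) i = 0 := by
    intro i
    have h1 := (EuclideanSpace.proj i : E m →L[ℝ] ℝ).intervalIntegral_comp_comm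
      (hc.intervalIntegrable (μ := volume) 0 (2 * π))
    rw [hint] at h1
    simpa using h1
  have key : ∀ i, ∫ t in (0 : ℝ)..(2 * π), (h t) i ^ 2 ≤
      ∫ t in (0 : ℝ)..(2 * π), (deriv h t) i ^ 2 := by
    intro i
    have sh : ∀ g : ℝ → ℝ, ∫ t in (-π)..π, g (t + π) = ∫ t in (0 : ℝ)..(2 * π), g t := by
      intro g
      rw [intervalIntegral.integral_comp_add_right]
      congr 1 <;> ring
    have h2 := wirt (fun t => (h (t + π)) i) (fun t => (deriv h (t + π)) i)
      (fun t => by
        have := (hdi i (t + π)).comp_add_const t π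
        simpa using this)
      ((hdci i).comp (by fun_prop : Continuous (fun t : ℝ => t + π)))
      (by
        have := hper (-π + π)
        simp only [neg_add_cancel, zero_add] at this
        show (h (-π + π)) i = (h (π + π)) i
        rw [neg_add_cancel, ← two_mul, this])
      (by rw [sh (fun t => (h t) i)]; exact hint' i)
    rw [sh (fun t => (h t) i ^ 2), sh (fun t => (deriv h t) i ^ 2)] at h2
    exact h2
  have e1 : ∀ t, ‖h t‖ ^ 2 = ∑ i, (h t) i ^ 2 := fun t => by
    rw [EuclideanSpace.norm_sq_eq]; simp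
  have e2 : ∀ t, ‖deriv h t‖ ^ 2 = ∑ i, (deriv h t) i ^ 2 := fun t => by
    rw [EuclideanSpace.norm_sq_eq]; simp
  simp only [e1, e2]
  rw [intervalIntegral.integral_finsetSum, intervalIntegral.integral_finsetSum]
  · exact Finset.sum_le_sum fun i _ => key i
  · intro i _; exact ((hdci i).pow 2).intervalIntegrable _ _
  · intro i _; exact ((hci i).pow 2).intervalIntegrable _ _

end Pool.Agent.H87.SN
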