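import Pool.Agent.H14.SN.ROT
import Pool.Agent.H14.SN.LAL
import Pool.Agent.H33.SN.IBP
import Pool.Agent.H94.SN.GRN
import Pool.Agent.H13.SN.BO1
import Pool.Agent.H96.SN.BO2
import Pool.Agent.H87.SN.WIR
import Pool.Agent.H68.SN.WIC
import Pool.Agent.H87.SN.ANG
import Pool.Agent.H45.SN.ST1
import Pool.Agent.H39.SN.HES
import Pool.Agent.H13.SN.CLA
import Pool.Agent.H67.SN.CL3
import Pool.Agent.H67.SN.GEO
import Pool.Agent.H23.SN.CUT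
import Pool.Agent.H10.SN.INN
import Pool.Agent.H11.SN.EN1
import Pool.Agent.H68.SN.EN2
import Pool.Agent.H67.SN.CV1
import Pool.Agent.H87.SN.CV2
import Pool.Agent.H79.SN.GRW
import Pool.Agent.H10.SN.PRW
import Pool.Agent.H23.SN.POL
import Pool.Agent.H87.SN.CSF
import Pool.Agent.H96.SN.PR1
import Pool.Agent.H2.SN.IN1
import Pool.Agent.H45.SN.KER
import Pool.Agent.H23.SN.JC1
import Pool.Agent.H34.SN.JLB
import Pool.Agent.H94.SN.HC1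
import Pool.Agent.H74.SN.PR2
import Pool.Agent.H49.SN.KIN
import Pool.Agent.H94.SN.JIN
import Pool.Agent.H87.SN.IN2
import Pool.Agent.H99.SN.NKD
import Pool.Agent.H34.SN.TH1
import Pool.Agent.H34.SN.TH2

/-! Collection of the finished rows of the board snk (MP_2697e3_an). -/

namespace Pool.Agent.H87.SN

theorem f_ROT : T_ROT := Pool.Agent.H14.SN.pf_ROT
theorem f_LA1 : T_LA1 := Pool.Agent.H14.SN.pf_LA1
theorem f_LA2 : T_LA2 := Pool.Agent.H14.SN.pf_LA2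
theorem f_LA3 : T_LA3 := Pool.Agent.H14.SN.pf_LA3
theorem f_IBP : T_IBP := Pool.Agent.H33.SN.pf_IBP
theorem f_GRN : T_GRN := Pool.Agent.H94.SN.pf_GRN f_IBP
theorem f_BO1 : T_BO1 := Pool.Agent.H13.SN.pf_BO1
theorem f_BO2 : T_BO2 := Pool.Agent.H96.SN.pf_BO2
theorem f_WIR : T_WIR := pf_WIR
theorem f_WIC : T_WIC := Pool.Agent.H68.SN.pf_WIC f_ROT f_WIR
theorem f_ANG : T_ANG := pf_ANG f_ROT f_LA2 f_GRN f_BO2 f_WIC
theorem f_ST1 : T_ST1 := Pool.Agent.H45.SN.pf_ST1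
theorem f_HES : T_HES := Pool.Agent.H39.SN.pf_HES f_LA3 f_GRN f_BO1
theorem f_CL1 : T_CL1 := Pool.Agent.H13.SN.pf_CL1
theorem f_CL2 : T_CL2 := Pool.Agent.H13.SN.pf_CL2 f_IBP
theorem f_CL3 : T_CL3 := Pool.Agent.H67.SN.pf_CL3 f_IBP f_CL1 f_CL2
theorem f_GEO : T_GEO := Pool.Agent.H67.SN.pf_GEO f_ROT
theorem f_CUT : T_CUT := Pool.Agent.H23.SN.pf_CUT
theorem f_INN : T_INN := Pool.Agent.H10.SN.pf_INN f_ROT
theorem f_EN1 : T_EN1 := Pool.Agent.H11.SN.pf_EN1 f_ROT f_LA1 f_CUT f_INN f_ANG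
theorem f_CV1 : T_CV1 := Pool.Agent.H67.SN.pf_CV1
theorem f_CV2 : T_CV2 := pf_CV2 f_LA1
theorem f_GRW : T_GRW := Pool.Agent.H79.SN.pf_GRW
theorem f_PRW : T_PRW := Pool.Agent.H10.SN.pf_PRW f_ROT f_CV1 f_CV2 f_GRW
theorem f_POL : T_POL := Pool.Agent.H23.SN.pf_POL
theorem f_CSF : T_CSF := pf_CSF
theorem f_PR1 : T_PR1 := Pool.Agent.H96.SN.pf_PR1
theorem f_IN1 : T_IN1 := Pool.Agent.H2.SN.pf_IN1 f_POL
theorem f_KER : T_KER := Pool.Agent.H45.SN.pf_KER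
theorem f_JC1 : T_JC1 := Pool.Agent.H23.SN.pf_JC1 f_KER
theorem f_JLB : T_JLB := Pool.Agent.H34.SN.pf_JLB
theorem f_HC1 : T_HC1 := Pool.Agent.H94.SN.pf_HC1
theorem f_PR2 : T_PR2 := Pool.Agent.H74.SN.pf_PR2 f_JC1 f_JLB f_HC1
theorem f_KIN : T_KIN := Pool.Agent.H49.SN.pf_KIN
theorem f_JIN : T_JIN := Pool.Agent.H94.SN.pf_JIN f_KIN
theorem f_IN2 : T_IN2 := pf_IN2 f_POL f_JC1 f_JIN
theorem f_NKD : T_NKD := Pool.Agent.H99.SN.pf_NKD f_ST1 f_CL1 f_CL2 f_CL3 f_GEO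

end Pool.Agent.H87.SN
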