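import Pool.Agent.H87.SN.Done
import Pool.Agent.H35.SN.POH
import Pool.Agent.H45.SN.EN3

/-! The two theorems on straight necks (MP_2697e3_an). -/

namespace Pool.Agent.H87.SN

theorem f_POH : T_POH := Pool.Agent.H35.SN.pf_POH f_ROT f_LA1 f_LA3
theorem f_EN2 : T_EN2 := Pool.Agent.H68.SN.pf_EN2 f_ROT f_LA1 f_CUT f_POH f_EN1
theorem f_EN3 : T_EN3 := Pool.Agent.H45.SN.pf_EN3 f_CUT f_INN f_HES f_EN2
theorem f_TH1 : T_TH1 := Pool.Agent.H34.SN.pf_TH1 f_NKD f_EN3 f_PRW f_PR1 f_IN1 f_CSF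
theorem f_TH2 : T_TH2 := Pool.Agent.H34.SN.pf_TH2 f_NKD f_EN3 f_PRW f_PR2 f_IN2 f_CSF

end Pool.Agent.H87.SN
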