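import Pool.Agent.H87.SN.Defs

/-! Straight necks (MP_2697e3_an): working definitions and target statements of the rows of the board.
Page: H87_SN.md in the team store. -/

namespace Pool.Agent.H87.SN

open MeasureTheory Metric Set Filter Topology
open scoped ContDiff RealInnerProductSpace

noncomputable section

/-! ### Working definitions -/

/-- `Px = (x_0, x_1, 0, ...)`. -/
def Pm (d : ℕ) : E (d + 2) →L[ℝ] E (d + 2) := LinearMap.toContinuousLinearMap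
  { toFun := fun x => WithLp.toLp 2 (fun i : Fin (d + 2) => if (i : ℕ) < 2 then x i else 0)
    map_add' := by
      intro x y; ext i; simp only [PiLp.add_apply]; split_ifs <;> simp
    map_smul' := by
      intro c x; ext i; simp }

/-- `Jx = (-x_1, x_0, 0, ...)`. -/
def Jm (d : ℕ) : E (d + 2) →L[ℝ] E (d + 2) := LinearMap.toContinuousLinearMap
  { toFun := fun x => WithLp.toLp 2
      (fun i : Fin (d + 2) => if (i : ℕ) = 0 then - x 1 else if (i : ℕ) = 1 then x 0 else 0)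
    map_add' := by
      intro x y; ext i; simp only [PiLp.add_apply]; split_ifs <;> simp; ring
    map_smul' := by
      intro c x; ext i; simp }

/-- Rotation by the angle `θ` in the first two coordinates. -/
def rot {d : ℕ} (θ : ℝ) (x : E (d + 2)) : E (d + 2) :=
  x + (Real.cos θ - 1) • Pm d x + Real.sin θ • Jm d x

/-- The part of the squared norm in the last `d` directions. -/
def nzs {d : ℕ} {F : Type*} [NormedAddCommGroup F] [NormedSpace ℝ F] (L : E (d + 2) →L[ℝ] F) : ℝ :=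
  ∑ i : Fin d, ‖L (bv i.succ.succ)‖ ^ 2

/-- Laplace operator. -/
def lap {n : ℕ} {F : Type*} [NormedAddCommGroup F] [NormedSpace ℝ F] (f : E n → F) (x : E n) : F :=
  ∑ i : Fin n, fderiv ℝ (fderiv ℝ f) x (bv i) (bv i)

/-- Squared norm of the Hessian. -/
def hsq {n : ℕ} {F : Type*} [NormedAddCommGroup F] [NormedSpace ℝ F] (f : E n → F) (x : E n) : ℝ :=
  ∑ i : Fin n, ∑ j : Fin n, ‖fderiv ℝ (fderiv ℝ f) x (bv i) (bv j)‖ ^ 2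

/-- Squared norm of the gradient of a real function. -/
def gsq {n : ℕ} (f : E n → ℝ) (x : E n) : ℝ := nsq (fderiv ℝ f x)

/-- The derivative along the rotation field. -/
def uth {d m : ℕ} (u : E (d + 2) → E m) (x : E (d + 2)) : E m := fderiv ℝ u x (Jm d x)

/-- The second derivative along the rotation field. -/
def uthth {d m : ℕ} (u : E (d + 2) → E m) (x : E (d + 2)) : E m :=
  fderiv ℝ (uth u) x (Jm d x)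

/-- `κ = - y · ∇_y η`. -/
def kap {d : ℕ} (η : E (d + 2) → ℝ) (x : E (d + 2)) : ℝ := - fderiv ℝ η x (Pm d x)

/-- Integrand of the stationarity identity. -/
def statF {n m : ℕ} (L : E n →L[ℝ] E m) (D : E n →L[ℝ] E n) : ℝ :=
  nsq L * ∑ i : Fin n, (D (bv i)) i
    - 2 * ∑ i : Fin n, ∑ j : Fin n, ⟪L (bv i), L (bv j)⟫ * (D (bv i)) j

/-- Tangency of the Laplacian: `⟨∂_v u, Δu⟩ = 0` on `U`. -/
def Orth {n m : ℕ} (U : Set (E n)) (u : E n → E m) : Prop :=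
  ∀ x ∈ U, ∀ v : E n, ⟪fderiv ℝ u x v, lap u x⟫ = 0

/-- A set invariant under the rotations. -/
def RotSet {d : ℕ} (U : Set (E (d + 2))) : Prop := ∀ θ : ℝ, ∀ x ∈ U, rot θ x ∈ U

/-- The facts on rotations. -/
structure RotFacts (d : ℕ) : Prop where
  mp : ∀ θ : ℝ, MeasurePreserving (rot (d := d) θ) volume volume
  norm : ∀ (θ : ℝ) (x : E (d + 2)), ‖rot θ x‖ = ‖x‖
  rho : ∀ (θ : ℝ) (x : E (d + 2)), SN.rho (rot θ x) = SN.rho x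
  zp : ∀ (θ : ℝ) (x : E (d + 2)), SN.zp (rot θ x) = SN.zp x
  hasDeriv : ∀ (x : E (d + 2)) (θ : ℝ), HasDerivAt (fun s : ℝ => rot s x) (Jm d (rot θ x)) θ
  add : ∀ (θ φ : ℝ) (x : E (d + 2)), rot θ (rot φ x) = rot (θ + φ) x
  zero : ∀ x : E (d + 2), rot 0 x = x
  period : ∀ (θ : ℝ) (x : E (d + 2)), rot (θ + 2 * Real.pi) x = rot θ x
  cont : Continuous (fun p : ℝ × E (d + 2) => rot p.1 p.2)
  normJ : ∀ x : E (d + 2), ‖Jm d x‖ = SN.rho x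
  normP : ∀ x : E (d + 2), ‖Pm d x‖ = SN.rho x
  innerJP : ∀ x : E (d + 2), ⟪Jm d x, Pm d x⟫ = 0
  innerJx : ∀ x : E (d + 2), ⟪Jm d x, x⟫ = 0

/-! ### Targets: linear algebra and calculus -/

def T_ROT : Prop := ∀ d : ℕ, RotFacts d

def T_LA1 : Prop := ∀ (d m : ℕ) (L : E (d + 2) →L[ℝ] E m) (x : E (d + 2)),
  rho x ^ 2 * nsq L = rho x ^ 2 * nzs L + ‖L (Pm d x)‖ ^ 2 + ‖L (Jm d x)‖ ^ 2

def T_LA2 : Prop := ∀ (n m : ℕ) (L : E n →L[ℝ] E m) (e v : E n), ‖e‖ = 1 → ⟪e, v⟫ = 0 →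
  ‖L v‖ ^ 2 ≤ ‖v‖ ^ 2 * (nsq L - ‖L e‖ ^ 2)

def T_LA3 : Prop := (∀ (n m : ℕ) (L : E n →L[ℝ] E m) (v : E n), ‖L v‖ ^ 2 ≤ ‖v‖ ^ 2 * nsq L) ∧
  (∀ (d m : ℕ) (L : E (d + 2) →L[ℝ] E m) (c : Fin d → ℝ),
    ‖∑ i : Fin d, c i • L (bv i.succ.succ)‖ ^ 2 ≤ (∑ i : Fin d, c i ^ 2) * nzs L)

def T_IBP : Prop := (∀ (n m : ℕ) (U : Set (E n)) (a : E n → ℝ) (b : E n → E m) (v : E n),
    IsOpen U → ContDiff ℝ 1 a → HasCompactSupport a → tsupport a ⊆ U → ContDiffOn ℝ 1 b U →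
    ∫ x, a x • fderiv ℝ b x v = - ∫ x, (fderiv ℝ a x v) • b x) ∧
  (∀ (n : ℕ) (U : Set (E n)) (a : E n → ℝ) (b : E n → ℝ) (v : E n),
    IsOpen U → ContDiff ℝ 1 a → HasCompactSupport a → tsupport a ⊆ U → ContDiffOn ℝ 1 b U →
    ∫ x, a x * fderiv ℝ b x v = - ∫ x, (fderiv ℝ a x v) * b x)

def T_GRN : Prop := ∀ (n : ℕ) (U : Set (E n)) (a f : E n → ℝ),
    IsOpen U → ContDiff ℝ 1 a → HasCompactSupport a → tsupport a ⊆ U → ContDiffOn ℝ 2 f U →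
    ∫ x, a x * lap f x = - ∫ x, ∑ i : Fin n, fderiv ℝ a x (bv i) * fderiv ℝ f x (bv i)

def T_BO1 : Prop := ∀ (n m : ℕ) (U : Set (E n)) (u : E n → E m),
    IsOpen U → ContDiffOn ℝ ∞ u U → Orth U u →
    ContDiffOn ℝ ∞ (fun x => nsq (fderiv ℝ u x)) U ∧ ∀ x ∈ U,
      lap (fun y => nsq (fderiv ℝ u y)) x = 2 * (hsq u x - ‖lap u x‖ ^ 2) ∧
      ∀ v : E n, |fderiv ℝ (fun y => nsq (fderiv ℝ u y)) x v| ≤
        2 * ‖v‖ * Real.sqrt (nsq (fderiv ℝ u x)) * Real.sqrt (hsq u x)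

def T_BO2 : Prop := ∀ (d m : ℕ) (U : Set (E (d + 2))) (u : E (d + 2) → E m),
    IsOpen U → ContDiffOn ℝ ∞ u U → Orth U u →
    ContDiffOn ℝ ∞ (uth u) U ∧ ∀ x ∈ U,
      lap (fun y => ‖uth u y‖ ^ 2) x = 2 * (nsq (fderiv ℝ (uth u) x) - ⟪uthth u x, lap u x⟫) ∧
      ∀ v : E (d + 2), fderiv ℝ (fun y => ‖uth u y‖ ^ 2) x v = 2 * ⟪uth u x, fderiv ℝ (uth u) x v⟫

/-- Wirtinger inequality on the circle. -/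
def T_WIR : Prop := ∀ (m : ℕ) (h : ℝ → E m), ContDiff ℝ 1 h →
    (∀ θ : ℝ, h (θ + 2 * Real.pi) = h θ) → ∫ θ in (0 : ℝ)..(2 * Real.pi), h θ = 0 →
    ∫ θ in (0 : ℝ)..(2 * Real.pi), ‖h θ‖ ^ 2 ≤ ∫ θ in (0 : ℝ)..(2 * Real.pi), ‖deriv h θ‖ ^ 2

/-- Wirtinger inequality on the circles, integrated. -/
def T_WIC : Prop := ∀ (d m : ℕ) (U : Set (E (d + 2))) (u : E (d + 2) → E m) (a : E (d + 2) → ℝ),
    IsOpen U → RotSet U → ContDiffOn ℝ ∞ u U → Continuous a → HasCompactSupport a →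
    tsupport a ⊆ U → (∀ x, 0 ≤ a x) → (∀ (θ : ℝ) (x : E (d + 2)), a (rot θ x) = a x) →
    ∫ x, a x * ‖uth u x‖ ^ 2 ≤ ∫ x, a x * ‖uthth u x‖ ^ 2

/-! ### Targets: the three integral estimates -/

/-- Step 1: angular part. -/
def T_ANG : Prop := ∀ (d m : ℕ) (U : Set (E (d + 2))) (u : E (d + 2) → E m) (w χ : E (d + 2) → ℝ),
    IsOpen U → RotSet U → (∀ x ∈ U, 0 < rho x) → ContDiffOn ℝ ∞ u U → Orth U u →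
    (∀ x ∈ U, |⟪uthth u x, lap u x⟫| * rho x ^ 2 ≤ 1 / 8 * ‖uth u x‖ ^ 2) →
    ContDiffOn ℝ 1 w U → (∀ x ∈ U, 0 < w x) → (∀ (θ : ℝ), ∀ x ∈ U, w (rot θ x) = w x) →
    (∀ x ∈ U, rho x ^ 2 * gsq w x ≤ 5 / 2 * w x ^ 2) →
    ContDiff ℝ 1 χ → HasCompactSupport χ → tsupport χ ⊆ U →
    (∀ (θ : ℝ) (x : E (d + 2)), χ (rot θ x) = χ x) →
    ∫ x, χ x ^ 2 * w x * (rho x ^ 2)⁻¹ * ‖uth u x‖ ^ 2 ≤
      54 * ∫ x, w x * gsq χ x * ‖uth u x‖ ^ 2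

/-- Stationarity for fields of class `C^1`. -/
def Stat1 {n m : ℕ} (G : E n → E n →L[ℝ] E m) : Prop :=
  ∀ X : E n → E n, ContDiff ℝ 1 X → HasCompactSupport X → tsupport X ⊆ ball 0 2 →
    ∫ x, statF (G x) (fderiv ℝ X x) = 0

def T_ST1 : Prop := ∀ (n m : ℕ) (G : E n → E n →L[ℝ] E m),
    MemLp G 2 (volume.restrict (ball (0 : E n) 2)) →
    (∀ X : E n → E n, IsTest X → ∫ x, statF (G x) (fderiv ℝ X x) = 0) → Stat1 G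

/-- Step 2: weighted Pohozaev inequality. -/
def T_POH : Prop := ∀ (d m : ℕ) (G : E (d + 2) → E (d + 2) →L[ℝ] E m) (ζ η : E (d + 2) → ℝ)
    (C₀ L : ℝ), MemLp G 2 (volume.restrict (ball (0 : E (d + 2)) 2)) → Stat1 G →
    ContDiff ℝ 1 ζ → HasCompactSupport ζ → tsupport ζ ⊆ ball 0 2 → (∀ x, 0 ≤ ζ x) →
    0 ≤ L → (∀ x, gsq ζ x ≤ L ^ 2) → ContDiff ℝ 1 η →
    (∀ x ∈ ball (0 : E (d + 2)) 2, fderiv ℝ η x (Jm d x) = 0) →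
    (∀ x ∈ ball (0 : E (d + 2)) 2, 0 ≤ η x) → (∀ x ∈ ball (0 : E (d + 2)) 2, 0 ≤ kap η x) →
    (∀ x ∈ ball (0 : E (d + 2)) 2, kap η x ≤ 3 / 2 * η x) →
    (∀ x ∈ ball (0 : E (d + 2)) 2, rho x ^ 2 * nzs (fderiv ℝ η x) ≤ kap η x * η x / 16) →
    (∀ x ∈ ball (0 : E (d + 2)) 2, rho x * η x ≤ C₀) →
    ∫ x in ball (0 : E (d + 2)) 2, ζ x * kap η x *
        (nzs (G x) + (rho x ^ 2)⁻¹ * ‖G x (Pm d x)‖ ^ 2) ≤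
      6 * (∫ x in ball (0 : E (d + 2)) 2, ζ x * kap η x * ((rho x ^ 2)⁻¹ * ‖G x (Jm d x)‖ ^ 2)) +
      18 * L * C₀ * ∫ x in ball (0 : E (d + 2)) 2, nsq (G x)

/-- Step 3: weighted Hessian estimate. -/
def T_HES : Prop := ∀ (d m : ℕ) (U : Set (E (d + 2))) (u : E (d + 2) → E m) (w χ : E (d + 2) → ℝ),
    IsOpen U → (∀ x ∈ U, 0 < rho x) → ContDiffOn ℝ ∞ u U → Orth U u →
    (∀ x ∈ U, ‖lap u x‖ ^ 2 * rho x ^ 2 ≤ 1 / 8 * nsq (fderiv ℝ u x)) →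
    ContDiffOn ℝ 1 w U → (∀ x ∈ U, 0 < w x) →
    (∀ x ∈ U, rho x ^ 2 * gsq w x ≤ 5 / 2 * w x ^ 2) →
    ContDiff ℝ 1 χ → HasCompactSupport χ → tsupport χ ⊆ U →
    ∫ x, χ x ^ 2 * rho x ^ 2 * w x * hsq u x ≤
      40 * ∫ x, (χ x ^ 2 + rho x ^ 2 * gsq χ x) * w x * nsq (fderiv ℝ u x)

/-! ### Targets: from the weak objects to the neck -/

def T_CL1 : Prop := ∀ (n m : ℕ) (N : Set (E m)) (U : Set (E n)) (u : E n → E m),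
    IsCompact N → IsOpen U → U ⊆ ball 0 2 → ContinuousOn u U →
    (∀ᵐ x ∂(volume.restrict (ball (0 : E n) 2)), u x ∈ N) → ∀ x ∈ U, u x ∈ N

def T_CL2 : Prop := ∀ (n m : ℕ) (U : Set (E n)) (u : E n → E m) (G : E n → E n →L[ℝ] E m),
    IsW12 u G → IsOpen U → U ⊆ ball 0 2 → ContDiffOn ℝ ∞ u U →
    ∀ᵐ x ∂(volume.restrict U), G x = fderiv ℝ u x

def T_CL3 : Prop := ∀ (n m : ℕ) (N : Set (E m)) (A : E m → E m →L[ℝ] E m →L[ℝ] E m)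
    (U : Set (E n)) (u : E n → E m) (G : E n → E n →L[ℝ] E m),
    IsCompact N → ContinuousOn A N → StationaryHarmonic N A u G → IsOpen U → U ⊆ ball 0 2 →
    ContDiffOn ℝ ∞ u U →
    ∀ x ∈ U, lap u x = - ∑ i : Fin n, A (u x) (fderiv ℝ u x (bv i)) (fderiv ℝ u x (bv i))

def T_GEO : Prop := ∀ (m : ℕ) (N : Set (E m)) (A : E m → E m →L[ℝ] E m →L[ℝ] E m),
    IsCompact N → IsSFF N A → ∃ CA : ℝ, 0 ≤ CA ∧ ∀ (d : ℕ) (U : Set (E (d + 2)))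
    (u : E (d + 2) → E m), IsOpen U → ContDiffOn ℝ ∞ u U → (∀ x ∈ U, u x ∈ N) →
    (∀ x ∈ U, lap u x =
      - ∑ i : Fin (d + 2), A (u x) (fderiv ℝ u x (bv i)) (fderiv ℝ u x (bv i))) →
    Orth U u ∧ (∀ x ∈ U, ‖lap u x‖ ≤ CA * nsq (fderiv ℝ u x)) ∧
    (∀ x ∈ U, |⟪uthth u x, lap u x⟫| ≤ CA ^ 2 * ‖uth u x‖ ^ 2 * nsq (fderiv ℝ u x))

/-! ### Targets: cutoffs -/

/-- Radial cutoff functions. -/
def T_CUT : Prop := ∀ (n : ℕ) (s t : ℝ), 0 < s → s < t → ∃ (ζ : E n → ℝ) (L : ℝ),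
    ContDiff ℝ ∞ ζ ∧ (∀ x, 0 ≤ ζ x ∧ ζ x ≤ 1) ∧ (∀ x y : E n, ‖x‖ = ‖y‖ → ζ x = ζ y) ∧
    (∀ x, ‖x‖ ≤ s → ζ x = 1) ∧ (∀ x, t ≤ ‖x‖ → ζ x = 0) ∧ 0 ≤ L ∧ (∀ x, gsq ζ x ≤ L ^ 2)

/-- Inner cutoff. -/
def T_INN : Prop := ∀ (d : ℕ) (M : ℝ), ∃ C : ℝ, 0 ≤ C ∧ ∀ r : E d → ℝ, ContDiff ℝ 1 r →
    (∀ z, 0 < r z) → (∀ z, ‖fderiv ℝ r z‖ ≤ M) → ∃ χ : E (d + 2) → ℝ,
    ContDiff ℝ 1 χ ∧ (∀ x, 0 ≤ χ x ∧ χ x ≤ 1) ∧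
    (∀ (θ : ℝ) (x : E (d + 2)), χ (rot θ x) = χ x) ∧
    (∀ x, rho x ≤ 9 / 8 * r (zp x) → χ x = 0) ∧ (∀ x, 2 * r (zp x) ≤ rho x → χ x = 1) ∧
    (∀ x, rho x ^ 2 * gsq χ x ≤ C) ∧ (∀ x, 2 * r (zp x) < rho x → gsq χ x = 0)

/-! ### Targets: the engine -/

/-- Admissible weights on the ball. -/
structure Wts (d : ℕ) (r : E d → ℝ) (C₀ C₁ : ℝ) (η w : E (d + 2) → ℝ) : Prop where
  eta_C1 : ContDiff ℝ 1 η
  eta_nonneg : ∀ x ∈ ball (0 : E (d + 2)) 2, 0 ≤ η x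
  eta_rot : ∀ (θ : ℝ) (x : E (d + 2)), η (rot θ x) = η x
  w_C1 : ContDiffOn ℝ 1 w {x | 0 < rho x}
  w_pos : ∀ x, 0 < rho x → 0 < w x
  w_rot : ∀ (θ : ℝ) (x : E (d + 2)), w (rot θ x) = w x
  kap_nonneg : ∀ x ∈ ball (0 : E (d + 2)) 2, 0 ≤ kap η x
  P1 : ∀ x ∈ ball (0 : E (d + 2)) 2, kap η x ≤ 3 / 2 * η x
  P2 : ∀ x ∈ ball (0 : E (d + 2)) 2, rho x ^ 2 * nzs (fderiv ℝ η x) ≤ kap η x * η x / 16
  P3 : ∀ x ∈ ball (0 : E (d + 2)) 2, rho x * η x ≤ C₀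
  P4 : ∀ x ∈ ball (0 : E (d + 2)) 2, rho x ≤ 2 * r (zp x) → kap η x ≤ C₀
  P5a : ∀ x ∈ ball (0 : E (d + 2)) 2, 0 < rho x → kap η x ≤ w x
  P5b : ∀ x ∈ ball (0 : E (d + 2)) 2, r (zp x) ≤ rho x → w x ≤ C₁ * kap η x
  P6 : ∀ x ∈ ball (0 : E (d + 2)) 2, r (zp x) < rho x → rho x ^ 2 * gsq w x ≤ 5 / 2 * w x ^ 2
  P7a : ∀ x ∈ ball (0 : E (d + 2)) 2, 0 < rho x → rho x ^ 2 * w x ≤ C₀
  P7b : ∀ x ∈ ball (0 : E (d + 2)) 2, r (zp x) ≤ rho x → rho x ≤ 2 * r (zp x) → w x ≤ C₀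

/-- What is used of the map. -/
structure NeckData (d m : ℕ) (r : E d → ℝ) (u : E (d + 2) → E m)
    (G : E (d + 2) → E (d + 2) →L[ℝ] E m) : Prop where
  memG : MemLp G 2 (volume.restrict (ball (0 : E (d + 2)) 2))
  stat : Stat1 G
  smooth : ContDiffOn ℝ ∞ u (neck r)
  ae : ∀ᵐ x ∂(volume.restrict (neck r)), G x = fderiv ℝ u x
  orth : Orth (neck r) u
  lapb : ∀ x ∈ neck r, ‖lap u x‖ ^ 2 * rho x ^ 2 ≤ 1 / 8 * nsq (fderiv ℝ u x)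
  angb : ∀ x ∈ neck r, |⟪uthth u x, lap u x⟫| * rho x ^ 2 ≤ 1 / 8 * ‖uth u x‖ ^ 2

/-- Estimate (1) of the page. -/
def T_EN1 : Prop := ∀ (d : ℕ) (C₀ C₁ M : ℝ), ∃ K : ℝ, 0 ≤ K ∧ ∀ r : E d → ℝ, ContDiff ℝ 1 r →
    (∀ z, 0 < r z) → (∀ z, ‖fderiv ℝ r z‖ ≤ M) → ∀ (η w : E (d + 2) → ℝ), Wts d r C₀ C₁ η w →
    ∀ (m : ℕ) (u : E (d + 2) → E m) (G : E (d + 2) → E (d + 2) →L[ℝ] E m), NeckData d m r u G →
    ∫ x in {x | x ∈ ball (0 : E (d + 2)) (3 / 2) ∧ 2 * r (zp x) ≤ rho x},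
      w x * ((rho x ^ 2)⁻¹ * ‖uth u x‖ ^ 2) ≤ K * ∫ x in ball (0 : E (d + 2)) 2, nsq (G x)

/-- Estimate (2) of the page. -/
def T_EN2 : Prop := ∀ (d : ℕ) (C₀ C₁ M : ℝ), ∃ K : ℝ, 0 ≤ K ∧ ∀ r : E d → ℝ, ContDiff ℝ 1 r →
    (∀ z, 0 < r z) → (∀ z, ‖fderiv ℝ r z‖ ≤ M) → ∀ (η w : E (d + 2) → ℝ), Wts d r C₀ C₁ η w →
    ∀ (m : ℕ) (u : E (d + 2) → E m) (G : E (d + 2) → E (d + 2) →L[ℝ] E m), NeckData d m r u G →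
    ∫ x in ball (0 : E (d + 2)) (5 / 4), kap η x * nsq (G x) ≤
      K * ∫ x in ball (0 : E (d + 2)) 2, nsq (G x)

/-- Estimate (3) of the page. -/
def T_EN3 : Prop := ∀ (d : ℕ) (C₀ C₁ M : ℝ), ∃ K : ℝ, 0 ≤ K ∧ ∀ r : E d → ℝ, ContDiff ℝ 1 r →
    (∀ z, 0 < r z) → (∀ z, ‖fderiv ℝ r z‖ ≤ M) → ∀ (η w : E (d + 2) → ℝ), Wts d r C₀ C₁ η w →
    ∀ (m : ℕ) (u : E (d + 2) → E m) (G : E (d + 2) → E (d + 2) →L[ℝ] E m), NeckData d m r u G →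
    ∫⁻ x in {x | x ∈ ball (0 : E (d + 2)) 1 ∧ 2 * r (zp x) < rho x},
      ENNReal.ofReal (rho x ^ 2 * w x * hsq u x) ≤
      ENNReal.ofReal (K * ∫ x in ball (0 : E (d + 2)) 2, nsq (G x))

/-! ### Targets: weights from profiles -/

/-- A profile: functions of `(ρ, z)`, with `W = - ρ ∂_ρ H`. -/
structure Prof (d : ℕ) (r : E d → ℝ) (C₀ : ℝ) (H W : ℝ × E d → ℝ) : Prop where
  H_C1 : ContDiffOn ℝ 1 H {p | 0 < p.1}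
  W_C1 : ContDiffOn ℝ 1 W {p | 0 < p.1}
  H_pos : ∀ p : ℝ × E d, 0 < p.1 → 0 < H p
  W_pos : ∀ p : ℝ × E d, 0 < p.1 → 0 < W p
  W_eq : ∀ p : ℝ × E d, 0 < p.1 → W p = - (p.1 * fderiv ℝ H p (1, 0))
  p1 : ∀ p : ℝ × E d, 0 < p.1 → |p.1 * fderiv ℝ W p (1, 0)| ≤ 3 / 2 * W p
  p2 : ∀ p : ℝ × E d, 0 < p.1 →
    p.1 ^ 2 * ∑ i : Fin d, (fderiv ℝ W p (0, bv i)) ^ 2 ≤ 1 / 4 * W p ^ 2
  p3 : ∀ p : ℝ × E d, 0 < p.1 → W p ≤ 3 / 2 * H p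
  p4 : ∀ p : ℝ × E d, 0 < p.1 →
    p.1 ^ 2 * ∑ i : Fin d, (fderiv ℝ H p (0, bv i)) ^ 2 ≤ H p * W p / 16
  p5 : ∀ p : ℝ × E d, 0 < p.1 → p.1 ≤ 3 → p.1 * H p ≤ C₀
  p6 : ∀ p : ℝ × E d, 0 < p.1 → p.1 ≤ 2 → p.1 ^ 2 * W p ≤ C₀
  p7 : ∀ p : ℝ × E d, 0 < p.1 → p.1 ≤ 2 → ‖p.2‖ ≤ 2 → p.1 ≤ 2 * r p.2 → W p ≤ C₀

/-- Chain rule for functions of `(√(ρ^2+h^2), z)`. -/
def T_CV1 : Prop := ∀ (d : ℕ) (H : ℝ × E d → ℝ) (h : ℝ), 0 < h →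
    ContDiffOn ℝ 1 H {p | 0 < p.1} →
    ContDiff ℝ 1 (fun x : E (d + 2) => H (Real.sqrt (rho x ^ 2 + h ^ 2), zp x)) ∧
    ∀ x : E (d + 2),
      kap (fun x : E (d + 2) => H (Real.sqrt (rho x ^ 2 + h ^ 2), zp x)) x =
        - (rho x ^ 2 / Real.sqrt (rho x ^ 2 + h ^ 2) *
          fderiv ℝ H (Real.sqrt (rho x ^ 2 + h ^ 2), zp x) (1, 0)) ∧
      nzs (fderiv ℝ (fun x : E (d + 2) => H (Real.sqrt (rho x ^ 2 + h ^ 2), zp x)) x) =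
        ∑ i : Fin d, (fderiv ℝ H (Real.sqrt (rho x ^ 2 + h ^ 2), zp x) (0, bv i)) ^ 2

/-- Chain rule for functions of `(ρ, z)`. -/
def T_CV2 : Prop := ∀ (d : ℕ) (W : ℝ × E d → ℝ), ContDiffOn ℝ 1 W {p | 0 < p.1} →
    ContDiffOn ℝ 1 (fun x : E (d + 2) => W (rho x, zp x)) {x | 0 < rho x} ∧
    ∀ x : E (d + 2), 0 < rho x →
      gsq (fun x : E (d + 2) => W (rho x, zp x)) x =
        (fderiv ℝ W (rho x, zp x) (1, 0)) ^ 2 +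
        ∑ i : Fin d, (fderiv ℝ W (rho x, zp x) (0, bv i)) ^ 2

/-- Growth of `W` in `ρ`. -/
def T_GRW : Prop := ∀ (W : ℝ → ℝ), (∀ s : ℝ, 0 < s → 0 < W s) →
    (∀ s : ℝ, 0 < s → DifferentiableAt ℝ W s) → (∀ s : ℝ, 0 < s → |s * deriv W s| ≤ 3 / 2 * W s) →
    ∀ s t : ℝ, 0 < s → s ≤ t →
      W t ≤ W s * (t / s) ^ (3 / 2 : ℝ) ∧ W s ≤ W t * (t / s) ^ (3 / 2 : ℝ)

/-- From profiles to weights. -/
def T_PRW : Prop := ∀ (d : ℕ) (r : E d → ℝ) (C₀ : ℝ) (H W : ℝ × E d → ℝ),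
    Continuous r → (∀ z, 0 < r z) → Prof d r C₀ H W →
    ∃ η : E (d + 2) → ℝ, Wts d r C₀ 4 η (fun x => W (rho x, zp x))

/-- Polar coordinates in the first two variables. -/
def T_POL : Prop := ∀ (d : ℕ) (f : ℝ × E d → ENNReal), Measurable f →
    ∫⁻ x : E (d + 2), f (rho x, zp x) =
      ∫⁻ z : E d, ∫⁻ s in Ioi (0 : ℝ), ENNReal.ofReal (2 * Real.pi * s) * f (s, z)

/-- Last step: from an integrable profile to the bound of the Hessian. -/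
def T_CSF : Prop := ∀ (d m : ℕ) (r : E d → ℝ) (w : E (d + 2) → ℝ) (u : E (d + 2) → E m)
    (a c : ℝ), 0 ≤ a → 0 ≤ c → Continuous r → (∀ z, 0 < r z) → ContDiffOn ℝ ∞ u (neck r) →
    ContinuousOn w {x | 0 < rho x} → (∀ x, 0 < rho x → 0 < w x) →
    ∫⁻ x in {x | x ∈ ball (0 : E (d + 2)) 1 ∧ 2 * r (zp x) < rho x},
      ENNReal.ofReal (rho x ^ 2 * w x * hsq u x) ≤ ENNReal.ofReal a →
    ∫⁻ x in {x | x ∈ ball (0 : E (d + 2)) 1 ∧ 2 * r (zp x) < rho x},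
      ENNReal.ofReal ((rho x ^ 2 * w x)⁻¹) ≤ ENNReal.ofReal c →
    ∫⁻ x in {x | x ∈ ball (0 : E (d + 2)) 1 ∧ 2 * r (zp x) < rho x},
      ENNReal.ofReal (hessNorm u x) ≤ ENNReal.ofReal (Real.sqrt (a * c))

/-! ### Targets: the two families of profiles -/

/-- Profiles of type (I): `|∇r| ≤ M r^α`. -/
def T_PR1 : Prop := ∀ (d : ℕ) (α M : ℝ), 0 < α → α ≤ 1 → ∃ C₀ : ℝ, 0 ≤ C₀ ∧
    ∀ r : E d → ℝ, ContDiff ℝ 1 r → (∀ z, 0 < r z ∧ r z ≤ 1) →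
    (∀ z, ‖fderiv ℝ r z‖ ≤ M * r z ^ α) →
    ∃ H W : ℝ × E d → ℝ, Prof d r C₀ H W ∧
      (∀ z : E d, ∀ s : ℝ, 2 * r z < s → s < 1 → (s ^ 2 * W (s, z))⁻¹ ≤
        C₀ * (s ^ 3)⁻¹ * (s ^ (1 + α) + r z))

/-- The weight of type (I) is integrable. -/
def T_IN1 : Prop := ∀ (d : ℕ) (α C : ℝ), 0 < α → α ≤ 1 → ∃ C₀ : ℝ, 0 ≤ C₀ ∧
    ∀ (r : E d → ℝ) (W : ℝ × E d → ℝ), Continuous r → (∀ z, 0 < r z ∧ r z ≤ 1) →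
    ContinuousOn W {p | 0 < p.1} → (∀ p : ℝ × E d, 0 < p.1 → 0 < W p) →
    (∀ z : E d, ∀ s : ℝ, 2 * r z < s → s < 1 → (s ^ 2 * W (s, z))⁻¹ ≤
        C * (s ^ 3)⁻¹ * (s ^ (1 + α) + r z)) →
    ∫⁻ x in {x | x ∈ ball (0 : E (d + 2)) 1 ∧ 2 * r (zp x) < rho x},
      ENNReal.ofReal ((rho x ^ 2 * W (rho x, zp x))⁻¹) ≤ ENNReal.ofReal C₀

/-! ### Targets: dimension three, arbitrary radius function -/

/-- The kernel. -/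
def kerJ (s τ : ℝ) : ℝ := (s / (s ^ 2 + τ ^ 2 / 100)) ^ (3 / 2 : ℝ)

/-- The influence function of the core. -/
def Jf (r : ℝ → ℝ) (s τ : ℝ) : ℝ := ∫ t in (-3 : ℝ)..3, Real.sqrt (r t) * kerJ s (τ - t)

/-- Bounds of the kernel and its partial derivatives. -/
def T_KER : Prop := (∀ s τ : ℝ, 0 < s → 0 < kerJ s τ) ∧
    ContDiffOn ℝ 1 (fun p : ℝ × ℝ => kerJ p.1 p.2) {p | 0 < p.1} ∧
    (∀ s τ : ℝ, 0 < s → |s * deriv (fun x => kerJ x τ) s| ≤ 3 / 2 * kerJ s τ) ∧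
    (∀ s τ : ℝ, 0 < s → |s * deriv (fun y => kerJ s y) τ| ≤ 3 / 20 * kerJ s τ)

/-- The function `J` is of class `C^1`, with the same logarithmic bounds. -/
def T_JC1 : Prop := ∀ r : ℝ → ℝ, Continuous r → (∀ t, 0 < r t) →
    (∀ s τ : ℝ, 0 < s → 0 < Jf r s τ) ∧
    ContDiffOn ℝ 1 (fun p : ℝ × ℝ => Jf r p.1 p.2) {p | 0 < p.1} ∧
    (∀ s τ : ℝ, 0 < s → |s * deriv (fun x => Jf r x τ) s| ≤ 3 / 2 * Jf r s τ) ∧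
    (∀ s τ : ℝ, 0 < s → |s * deriv (fun y => Jf r s y) τ| ≤ 3 / 20 * Jf r s τ)

/-- Lower bound of `J` in the core. -/
def T_JLB : Prop := ∀ M : ℝ, ∃ c : ℝ, 0 < c ∧ ∀ r : ℝ → ℝ, ContDiff ℝ 1 r →
    (∀ t, 0 < r t ∧ r t ≤ 1) → (∀ t, |deriv r t| ≤ M) →
    ∀ s τ : ℝ, 0 < s → |τ| ≤ 2 → s ≤ 2 * r τ → c ≤ Jf r s τ

/-- The function `H`, in general. -/
def T_HC1 : Prop := ∀ W : ℝ × ℝ → ℝ, ContDiffOn ℝ 1 W {p | 0 < p.1} →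
    (∀ s τ : ℝ, 0 < s → 0 < W (s, τ)) → (∀ s τ : ℝ, 0 < s → W (s, τ) ≤ s⁻¹) →
    (∀ s τ : ℝ, 0 < s → |s * deriv (fun x => W (x, τ)) s| ≤ 3 / 2 * W (s, τ)) →
    (∀ s τ : ℝ, 0 < s → |s * deriv (fun y => W (s, y)) τ| ≤ 3 / 20 * W (s, τ)) →
    ∃ H : ℝ × ℝ → ℝ, ContDiffOn ℝ 1 H {p | 0 < p.1} ∧
      (∀ s τ : ℝ, 0 < s → 0 < H (s, τ)) ∧
      (∀ s τ : ℝ, 0 < s → W (s, τ) = - (s * deriv (fun x => H (x, τ)) s)) ∧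
      (∀ s τ : ℝ, 0 < s → W (s, τ) ≤ 3 / 2 * H (s, τ)) ∧
      (∀ s τ : ℝ, 0 < s → (s * deriv (fun y => H (s, y)) τ) ^ 2 ≤ H (s, τ) * W (s, τ) / 16) ∧
      (∀ s τ : ℝ, 0 < s → s * H (s, τ) ≤ 1)

/-- The profile in dimension three. -/
def T_PR2 : Prop := ∀ M : ℝ, ∃ C₀ : ℝ, 0 ≤ C₀ ∧ ∀ r : E 1 → ℝ, ContDiff ℝ 1 r →
    (∀ z, 0 < r z ∧ r z ≤ 1) → (∀ z, ‖fderiv ℝ r z‖ ≤ M) →
    ∃ H : ℝ × E 1 → ℝ, Prof 1 r C₀ H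
      (fun p => (p.1 + Jf (fun t => r (EuclideanSpace.single 0 t)) p.1 (p.2 0))⁻¹)

/-- The integral of the kernel away from a core. -/
def T_KIN : Prop := ∀ M : ℝ, 1 ≤ M → ∃ C : ℝ, 0 ≤ C ∧ ∀ a : ℝ, 0 < a → a ≤ 1 →
    ∫⁻ τ : ℝ, ∫⁻ s in Ioi (0 : ℝ), (if a / 2 ≤ s ∨ a / (2 * M) ≤ |τ| then
      ENNReal.ofReal (kerJ s τ / s) else 0) ≤ ENNReal.ofReal (C / Real.sqrt a)

/-- The integral of `J` over the neck. -/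
def T_JIN : Prop := ∀ M : ℝ, ∃ C : ℝ, 0 ≤ C ∧ ∀ r : ℝ → ℝ, ContDiff ℝ 1 r →
    (∀ t, 0 < r t ∧ r t ≤ 1) → (∀ t, |deriv r t| ≤ M) →
    ∫⁻ τ : ℝ, ∫⁻ s in Ioi (r τ), ENNReal.ofReal (Jf r s τ / s) ≤ ENNReal.ofReal C

/-- The weight in dimension three is integrable. -/
def T_IN2 : Prop := ∀ M : ℝ, ∃ C₀ : ℝ, 0 ≤ C₀ ∧ ∀ r : E 1 → ℝ, ContDiff ℝ 1 r →
    (∀ z, 0 < r z ∧ r z ≤ 1) → (∀ z, ‖fderiv ℝ r z‖ ≤ M) →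
    ∫⁻ x in {x | x ∈ ball (0 : E (1 + 2)) 1 ∧ 2 * r (zp x) < rho x},
      ENNReal.ofReal ((rho x ^ 2 *
        (rho x + Jf (fun t => r (EuclideanSpace.single 0 t)) (rho x) (zp x 0))⁻¹)⁻¹) ≤
      ENNReal.ofReal C₀

/-! ### Assembly -/

/-- From the definition of stationary harmonic maps to the data on the neck. -/
def T_NKD : Prop := ∀ (m : ℕ) (N : Set (E m)) (A : E m → E m →L[ℝ] E m →L[ℝ] E m),
    IsCompact N → IsSFF N A → ∃ δ : ℝ, 0 < δ ∧ ∀ (d : ℕ) (r : E d → ℝ)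
    (u : E (d + 2) → E m) (G : E (d + 2) → E (d + 2) →L[ℝ] E m), Continuous r →
    (∀ z, 0 < r z) → StationaryHarmonic N A u G → ContDiffOn ℝ ∞ u (neck r) →
    (∀ x ∈ neck r, rho x * Real.sqrt (nsq (fderiv ℝ u x)) ≤ δ) → NeckData d m r u G

/-- The bound of the Hessian on a class of radius functions given by the predicate `R`. -/
def HessBound (d : ℕ) (R : (E d → ℝ) → Prop) (m : ℕ) (N : Set (E m))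
    (A : E m → E m →L[ℝ] E m →L[ℝ] E m) (δ K : ℝ) : Prop :=
  ∀ r : E d → ℝ, ContDiff ℝ 1 r → (∀ z, 0 < r z ∧ r z ≤ 1) → R r →
    ∀ (u : E (d + 2) → E m) (G : E (d + 2) → E (d + 2) →L[ℝ] E m),
    StationaryHarmonic N A u G → ContDiffOn ℝ ∞ u (neck r) →
    (∀ x ∈ neck r, rho x * Real.sqrt (nsq (fderiv ℝ u x)) ≤ δ) →
    ∫⁻ x in {x | x ∈ ball (0 : E (d + 2)) 1 ∧ 2 * r (zp x) < rho x},
      ENNReal.ofReal (hessNorm u x) ≤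
      ENNReal.ofReal (K * Real.sqrt (∫ x in ball (0 : E (d + 2)) 2, nsq (G x)))

/-- Theorem (I). -/
def T_TH1 : Prop := ∀ (m : ℕ) (N : Set (E m)) (A : E m → E m →L[ℝ] E m →L[ℝ] E m),
    IsCompact N → IsSFF N A → ∃ δ : ℝ, 0 < δ ∧ ∀ (d : ℕ) (α M : ℝ), 0 < α →
    ∃ K : ℝ, HessBound d (fun r => ∀ z, ‖fderiv ℝ r z‖ ≤ M * r z ^ α) m N A δ K

/-- Theorem (II). -/
def T_TH2 : Prop := ∀ (m : ℕ) (N : Set (E m)) (A : E m → E m →L[ℝ] E m →L[ℝ] E m),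
    IsCompact N → IsSFF N A → ∃ δ : ℝ, 0 < δ ∧ ∀ (M : ℝ),
    ∃ K : ℝ, HessBound 1 (fun r => ∀ z, ‖fderiv ℝ r z‖ ≤ M) m N A δ K

end

end Pool.Agent.H87.SN
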